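import Pool.Agent.K7.H70.SM.B

/-!
# The curve has bad reduction above three over every extension of 2-power degree of `ℚ(ζ₉)`
-/

set_option autoImplicit false

open NumberField IsDedekindDomain WithZero WeierstrassCurve IsDedekindDomain.HeightOneSpectrum

namespace Pool.Agent.K7.H70.SM

open Pool.Agent.Y696
open Pool.Agent.W189.NF (aV eV redMap Ov card_res finite_res)

/-- an equation for bad reduction -/
def NG (K : Type) [Field K] [NumberField K] : Prop :=
  ∀ w : HeightOneSpectrum (𝓞 K), (3 : 𝓞 K) ∈ w.asIdeal → ∀ r : K,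
    w.valuation K 3 ^ 3 < w.valuation K (1 + 4 * r ^ 3) ^ 2

section val
variable {K : Type} [Field K] (V : Valuation K ℤᵐ⁰)

lemma V_int (m : ℤ) : V (m : K) ≤ 1 := by
  have h1 : ∀ n : ℕ, V (n : K) ≤ 1 := by
    intro n
    induction n with
    | zero => rw [Nat.cast_zero, map_zero]; exact zero_le
    | succ n ih =>
      rw [Nat.cast_succ]
      exact V.map_add_le ih (by rw [map_one])
  obtain ⟨n, rfl | rfl⟩ := m.eq_nat_or_neg
  · rw [Int.cast_natCast]; exact h1 n
  · rw [Int.cast_neg, Int.cast_natCast, Valuation.map_neg]; exact h1 n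

/-- no good reduction: the computation in `ℚ(ζ₉)` -/
theorem key_val {z : K} (hz : z ^ 6 + z ^ 3 + 1 = 0) {e : ℕ} (h3e : ¬ 3 ∣ e)
    (he : V (1 - z) = exp (-(e : ℤ))) (r : K) : V 3 ^ 3 < V (1 + 4 * r ^ 3) ^ 2 := by
  set l : K := 1 - z with hl
  have he0 : 0 < e := Nat.pos_of_ne_zero fun h => h3e (by rw [h]; exact dvd_zero 3)
  have hl1 : V l < 1 := by
    rw [he, ← exp_zero, exp_lt_exp]
    omega
  have hmul : ∀ x : K, V x ≤ 1 → V (l * x) < 1 := by
    intro x hx
    rw [map_mul]
    exact mul_lt_one_of_nonneg_of_lt_one_left zero_le hl1 hx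
  have hi : ∀ m : ℤ, V (m : K) ≤ 1 := V_int V
  have hadd : ∀ x y : K, V x ≤ 1 → V y ≤ 1 → V (x + y) ≤ 1 := fun x y hx hy => V.map_add_le hx hy
  have hml : ∀ x : K, V x ≤ 1 → V (l * x) ≤ 1 := fun x hx => (hmul x hx).le
  -- the unit
  have hP : l ^ 6 = -(3 * (1 + l * (-3 + l * (6 + l * (-7 + l * (5 + l * (-2))))))) := by
    rw [hl]
    linear_combination hz
  have hu : V (1 + l * (-3 + l * (6 + l * (-7 + l * (5 + l * (-2)))))) = 1 := by
    rw [Valuation.map_add_eq_of_lt_left V]
    · rw [map_one]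
    · rw [map_one]
      refine hmul _ ?_
      refine hadd _ _ (by exact_mod_cast hi (-3)) (hml _ ?_)
      refine hadd _ _ (by exact_mod_cast hi 6) (hml _ ?_)
      refine hadd _ _ (by exact_mod_cast hi (-7)) (hml _ ?_)
      refine hadd _ _ (by exact_mod_cast hi 5) (hml _ ?_)
      exact_mod_cast hi (-2)
  have h3 : V 3 = V l ^ 6 := by
    rw [← map_pow, hP, Valuation.map_neg, map_mul, hu, mul_one]
  have h31 : V 3 < 1 := by
    rw [h3]
    exact pow_lt_one₀ zero_le hl1 (by norm_num)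
  have hodd : ∀ m : ℤ, ∀ k : ℤ, m = 3 * k + 1 ∨ m = 3 * k - 1 → V (m : K) = 1 := by
    intro m k hm
    have h4 : V ((3 : K) * k) < 1 := by
      rw [map_mul]
      exact mul_lt_one_of_nonneg_of_lt_one_left zero_le h31 (hi k)
    rcases hm with rfl | rfl
    · push_cast
      rw [Valuation.map_add_eq_of_lt_right V (by rw [map_one]; exact h4), map_one]
    · push_cast
      rw [sub_eq_add_neg, Valuation.map_add_eq_of_lt_right V
        (by rw [Valuation.map_neg, map_one]; exact h4), Valuation.map_neg, map_one]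
  have h4 : V 4 = 1 := by exact_mod_cast hodd 4 1 (Or.inl (by norm_num))
  have h20 : V 20 = 1 := by exact_mod_cast hodd 20 7 (Or.inr (by norm_num))
  -- the approximate root
  set r0 : K := -1 - l ^ 2 with hr0
  have e0 : 1 + 4 * r0 ^ 3 = 3 * ((3 - 12 * l) +
      l ^ 2 * (20 + l * (-28 + l * (16 + l * (-8))))) := by
    rw [hr0]
    linear_combination (-4 : K) * hP
  have hA : V (20 + l * (-28 + l * (16 + l * (-8)))) = 1 := by
    rw [Valuation.map_add_eq_of_lt_left V, h20]
    rw [h20]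
    refine hmul _ ?_
    refine hadd _ _ (by exact_mod_cast hi (-28)) (hml _ ?_)
    refine hadd _ _ (by exact_mod_cast hi 16) (hml _ ?_)
    exact_mod_cast hi (-8)
  have hB : V (3 - 12 * l) ≤ V l ^ 6 := by
    have : (3 : K) - 12 * l = 3 * (1 + l * (-4)) := by ring
    rw [this, map_mul, h3]
    have : V (1 + l * (-4)) ≤ 1 := hadd _ _ (by rw [map_one]) (hml _ (by exact_mod_cast hi (-4)))
    calc V l ^ 6 * V (1 + l * (-4)) ≤ V l ^ 6 * 1 := by gcongr
      _ = V l ^ 6 := mul_one _
  have hAB : V ((3 - 12 * l) + l ^ 2 * (20 + l * (-28 + l * (16 + l * (-8))))) = V l ^ 2 := by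
    rw [Valuation.map_add_eq_of_lt_right V, map_mul, hA, mul_one, map_pow]
    rw [map_mul, hA, mul_one, map_pow]
    refine lt_of_le_of_lt hB ?_
    rw [he, ← exp_nsmul, ← exp_nsmul, exp_lt_exp]
    simp only [nsmul_eq_mul]
    push_cast
    omega
  have h8 : V (1 + 4 * r0 ^ 3) = exp (-(8 * e : ℤ)) := by
    rw [e0, map_mul, hAB, h3, he, ← exp_nsmul, ← exp_nsmul, ← exp_add]
    congr 1
    simp only [nsmul_eq_mul]
    push_cast
    ring
  have hr1 : V r0 = 1 := by
    rw [hr0, sub_eq_add_neg, Valuation.map_add_eq_of_lt_left V, Valuation.map_neg, map_one]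
    rw [Valuation.map_neg, Valuation.map_neg, map_one, map_pow]
    exact pow_lt_one₀ zero_le hl1 two_ne_zero
  -- the value at `r`
  have hgoal : exp (-(9 * e : ℤ)) < V (1 + 4 * r ^ 3) := by
    set b : K := r - r0 with hb
    have e1 : 1 + 4 * r ^ 3 = (1 + 4 * r0 ^ 3) + 4 * b ^ 3 + 3 * (4 * r0 ^ 2 * b + 4 * r0 * b ^ 2) := by
      rw [hb]
      ring
    have h3' : V 3 = exp (-(6 * e : ℤ)) := by
      rw [h3, he, ← exp_nsmul]
      congr 1
      simp only [nsmul_eq_mul]
      push_cast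
      ring
    by_cases hb0 : b = 0
    · rw [e1, hb0]
      have e2 : (1 + 4 * r0 ^ 3) + 4 * (0 : K) ^ 3 + 3 * (4 * r0 ^ 2 * 0 + 4 * r0 * 0 ^ 2) =
        1 + 4 * r0 ^ 3 := by ring
      rw [e2, h8, exp_lt_exp]
      omega
    have hVb : V b ≠ 0 := (Valuation.ne_zero_iff _).2 hb0
    obtain ⟨n, hn⟩ := exp_rep hVb
    have hb3 : V (4 * b ^ 3) = exp (3 * n) := by
      rw [map_mul, h4, one_mul, map_pow, hn, ← exp_nsmul]
      rfl
    have hc : V (3 * (4 * r0 ^ 2 * b + 4 * r0 * b ^ 2)) ≤ exp (-(6 * e : ℤ) + max n (2 * n)) := by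
      rw [map_mul, h3', exp_add]
      gcongr
      refine V.map_add_le ?_ ?_
      · rw [map_mul, map_mul, map_pow, h4, hr1, hn, one_pow, one_mul, one_mul, exp_le_exp]
        exact le_max_left _ _
      · rw [map_mul, map_mul, map_pow, h4, hr1, hn, one_mul, one_mul, ← exp_nsmul, exp_le_exp]
        exact le_max_right _ _
    rcases lt_trichotomy (3 * n) (-(8 * e : ℤ)) with h | h | h
    · -- the approximate root is better
      have k1 : V (4 * b ^ 3) < V (1 + 4 * r0 ^ 3) := by
        rw [hb3, h8, exp_lt_exp]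
        exact h
      have k2 : V (1 + 4 * r0 ^ 3 + 4 * b ^ 3) = exp (-(8 * e : ℤ)) := by
        rw [Valuation.map_add_eq_of_lt_left V k1, h8]
      have k3 : V (3 * (4 * r0 ^ 2 * b + 4 * r0 * b ^ 2)) < V (1 + 4 * r0 ^ 3 + 4 * b ^ 3) := by
        rw [k2]
        refine lt_of_le_of_lt hc ?_
        rw [exp_lt_exp]
        omega
      rw [e1, Valuation.map_add_eq_of_lt_left V k3, k2, exp_lt_exp]
      omega
    · exfalso
      apply h3e
      omega
    · have k1 : V (1 + 4 * r0 ^ 3) < V (4 * b ^ 3) := by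
        rw [hb3, h8, exp_lt_exp]
        exact h
      have k2 : V (1 + 4 * r0 ^ 3 + 4 * b ^ 3) = exp (3 * n) := by
        rw [Valuation.map_add_eq_of_lt_right V k1, hb3]
      have k3 : V (3 * (4 * r0 ^ 2 * b + 4 * r0 * b ^ 2)) < V (1 + 4 * r0 ^ 3 + 4 * b ^ 3) := by
        rw [k2]
        refine lt_of_le_of_lt hc ?_
        rw [exp_lt_exp]
        omega
      rw [e1, Valuation.map_add_eq_of_lt_left V k3, k2, exp_lt_exp]
      omega
  have e9 : V 3 ^ 3 = exp (-(9 * e : ℤ)) ^ 2 := by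
    rw [h3, he, ← exp_nsmul, ← exp_nsmul, ← exp_nsmul]
    congr 1
    simp only [nsmul_eq_mul]
    push_cast
    ring
  rw [e9]
  exact pow_lt_pow_left₀ hgoal zero_le two_ne_zero

end val

section dvr
variable (R : Type*) [CommRing R] [IsDomain R] [IsDiscreteValuationRing R] {L : Type*} [Field L]
  [Algebra R L] [IsFractionRing R L]

/-- good reduction gives a solution of the inequality -/
theorem good_r (W : WeierstrassCurve L) (hW : W = ⟨0, 0, 1, 0, 0⟩) (h : (W.minimal R).HasGoodReduction R) :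
    ∃ r : L, valuation L (IsDiscreteValuationRing.maximalIdeal R) (1 + 4 * r ^ 3) ^ 2 ≤
      valuation L (IsDiscreteValuationRing.maximalIdeal R) 3 ^ 3 := by
  set V := valuation L (IsDiscreteValuationRing.maximalIdeal R) with hV
  set C : VariableChange L := (W.exists_isMinimal R).choose with hC
  have hCm : W.minimal R = C • W := rfl
  have hb2 : W.b₂ = 0 := by rw [hW]; unfold WeierstrassCurve.b₂; norm_num
  have hb4 : W.b₄ = 0 := by rw [hW]; unfold WeierstrassCurve.b₄; norm_num
  have hb6 : W.b₆ = 1 := by rw [hW]; unfold WeierstrassCurve.b₆; norm_num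
  have hΔ : W.Δ = -27 := by
    have hb8 : W.b₈ = 0 := by rw [hW]; unfold WeierstrassCurve.b₈; norm_num
    unfold WeierstrassCurve.Δ
    rw [hb2, hb4, hb6, hb8]
    norm_num
  rw [hCm] at h
  have h1 := h.goodReduction
  have hmin : IsMinimal R (C • W) := h.toIsMinimal
  have hint : IsIntegral R (C • W) := inferInstance
  rw [variableChange_Δ, map_mul, map_pow, hΔ, ← hV] at h1
  have h2 : V (C.u : L) * V ((C.u⁻¹ : Lˣ) : L) = 1 := by
    rw [← map_mul, Units.mul_inv, map_one]
  have h27 : V (-27 : L) = V 3 ^ 3 := by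
    rw [← map_pow, Valuation.map_neg]
    norm_num
  have hu12 : V (C.u : L) ^ 12 = V 3 ^ 3 := by
    calc V (C.u : L) ^ 12 = V (C.u : L) ^ 12 * (V ((C.u⁻¹ : Lˣ) : L) ^ 12 * V (-27 : L)) := by
          rw [h1, mul_one]
      _ = (V (C.u : L) * V ((C.u⁻¹ : Lˣ) : L)) ^ 12 * V (-27 : L) := by rw [mul_pow, mul_assoc]
      _ = V 3 ^ 3 := by rw [h2, one_pow, one_mul, h27]
  have hb6' : V (C • W).b₆ ≤ 1 := by
    rw [← integralModel_b₆_eq R (C • W)]
    exact valuation_le_one _ _
  rw [variableChange_b₆, hb2, hb4, hb6, map_mul, map_pow] at hb6'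
  have e0 : (1 : L) + 2 * C.r * 0 + C.r ^ 2 * 0 + 4 * C.r ^ 3 = 1 + 4 * C.r ^ 3 := by ring
  rw [e0] at hb6'
  have h5 : V (1 + 4 * C.r ^ 3) ≤ V (C.u : L) ^ 6 := by
    calc V (1 + 4 * C.r ^ 3) = V (C.u : L) ^ 6 * (V ((C.u⁻¹ : Lˣ) : L) ^ 6 * V (1 + 4 * C.r ^ 3)) := by
          rw [← mul_assoc, ← mul_pow, h2, one_pow, one_mul]
      _ ≤ V (C.u : L) ^ 6 * 1 := by gcongr
      _ = V (C.u : L) ^ 6 := mul_one _
  refine ⟨C.r, ?_⟩
  calc V (1 + 4 * C.r ^ 3) ^ 2 ≤ (V (C.u : L) ^ 6) ^ 2 := by gcongr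
    _ = V 3 ^ 3 := by rw [← pow_mul, ← hu12]

/-- a curve with `c₄ = 0` has no multiplicative reduction -/
theorem not_mult (W : WeierstrassCurve L) (h4 : W.c₄ = 0) :
    ¬ (W.minimal R).HasMultiplicativeReduction R := by
  intro h
  have h1 := h.multiplicativeReduction
  have hCm : W.minimal R = (W.exists_isMinimal R).choose • W := rfl
  rw [hCm, variableChange_c₄, h4, mul_zero, map_zero] at h1
  exact zero_ne_one h1

end dvr

section
variable {k : Type} [Field k] [NumberField k]

/-- **bad reduction** -/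
theorem add3_of_ng (h : NG k) : Add3 k := by
  intro w h3
  have hv3 : Valued.v (3 : w.adicCompletion k) = w.valuation k 3 := by
    have h1 := Pool.Agent.H723R3.valued_algebraMap w (3 : k)
    rw [map_ofNat] at h1
    exact h1
  have hlt : w.valuation k 3 < 1 := by
    have h1 := (w.valuation_lt_one_iff_mem (K := k) (3 : 𝓞 k)).2 h3
    have e : algebraMap (𝓞 k) k (3 : 𝓞 k) = 3 := map_ofNat _ 3
    rw [← e]
    exact h1
  have hng : ¬ (((E0 k).baseChange (w.adicCompletion k)).minimal
      (w.adicCompletionIntegers k)).HasGoodReduction (w.adicCompletionIntegers k) := by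
    intro hg
    obtain ⟨r, hr⟩ := good_r (w.adicCompletionIntegers k) (L := w.adicCompletion k)
      _ (E0_map _) hg
    rw [Pool.Agent.Y688.val_all, Pool.Agent.Y688.val_all, hv3] at hr
    -- approximation
    have hc0 : w.valuation k 3 ≠ 0 := (Valuation.ne_zero_iff _).2 (by norm_num)
    have hr1 : Valued.v r ≤ 1 := by
      by_contra hcon
      push Not at hcon
      have h4 : Valued.v (4 * r ^ 3) = Valued.v r ^ 3 := by
        have : Valued.v (4 : w.adicCompletion k) = 1 := by
          have e : (4 : w.adicCompletion k) = 1 + 3 := by norm_num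
          rw [e, Valuation.map_add_eq_of_lt_left _ (by rw [map_one, hv3]; exact hlt), map_one]
        rw [map_mul, map_pow, this, one_mul]
      have h5 : 1 < Valued.v (4 * r ^ 3) := by
        rw [h4]
        exact one_lt_pow₀ hcon (by norm_num)
      rw [Valuation.map_add_eq_of_lt_right _ (by rw [map_one]; exact h5)] at hr
      have h6 : (1 : ℤᵐ⁰) < Valued.v (4 * r ^ 3) ^ 2 := one_lt_pow₀ h5 (by norm_num)
      have h7 : w.valuation k 3 ^ 3 ≤ 1 := pow_le_one' hlt.le 3
      exact absurd (h6.trans_le (hr.trans h7)) (lt_irrefl _)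
    obtain ⟨r', hr'⟩ := Pool.Agent.H723R3.exists_approx (K := k) w r (Units.mk0 _ (pow_ne_zero 2 hc0))
    rw [Units.val_mk0] at hr'
    set t : w.adicCompletion k := algebraMap k (w.adicCompletion k) r' with ht
    have hsq : w.valuation k 3 ^ 2 ≤ 1 := pow_le_one' hlt.le 2
    have ht1 : Valued.v t ≤ 1 := by
      have e : t = (t - r) + r := by ring
      rw [e]
      exact Valuation.map_add_le _ (hr'.le.trans hsq) hr1
    have hd : Valued.v (1 + 4 * t ^ 3 - (1 + 4 * r ^ 3)) ≤ w.valuation k 3 ^ 2 := by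
      have e : 1 + 4 * t ^ 3 - (1 + 4 * r ^ 3) = (t - r) * (4 * (t ^ 2 + t * r + r ^ 2)) := by ring
      rw [e, map_mul]
      have h4 : Valued.v (4 * (t ^ 2 + t * r + r ^ 2)) ≤ 1 := by
        have h41 : Valued.v (4 : w.adicCompletion k) ≤ 1 := by
          have e : (4 : w.adicCompletion k) = 1 + 3 := by norm_num
          rw [e]
          exact Valuation.map_add_le _ (by rw [map_one]) (by rw [hv3]; exact hlt.le)
        rw [map_mul]
        refine mul_le_one' h41 (Valuation.map_add_le _ (Valuation.map_add_le _ ?_ ?_) ?_)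
        · rw [map_pow]; exact pow_le_one' ht1 2
        · rw [map_mul]; exact mul_le_one' ht1 hr1
        · rw [map_pow]; exact pow_le_one' hr1 2
      calc _ ≤ w.valuation k 3 ^ 2 * 1 := by gcongr
        _ = _ := mul_one _
    have hfin : Valued.v (1 + 4 * t ^ 3) ^ 2 ≤ w.valuation k 3 ^ 3 := by
      have e : 1 + 4 * t ^ 3 = (1 + 4 * r ^ 3) + (1 + 4 * t ^ 3 - (1 + 4 * r ^ 3)) := by ring
      have h5 : Valued.v (1 + 4 * t ^ 3) ≤ max (Valued.v (1 + 4 * r ^ 3)) (w.valuation k 3 ^ 2) := by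
        rw [e]
        exact (Valuation.map_add _ _ _).trans (max_le_max le_rfl hd)
      rcases le_max_iff.1 h5 with h6 | h6
      · calc _ ≤ Valued.v (1 + 4 * r ^ 3) ^ 2 := by gcongr
          _ ≤ _ := hr
      · calc _ ≤ (w.valuation k 3 ^ 2) ^ 2 := by gcongr
          _ = w.valuation k 3 ^ 3 * w.valuation k 3 := by rw [← pow_mul, ← pow_succ]
          _ ≤ w.valuation k 3 ^ 3 * 1 := by gcongr
          _ = _ := mul_one _
    have e3 : 1 + 4 * t ^ 3 = algebraMap k (w.adicCompletion k) (1 + 4 * r' ^ 3) := by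
      rw [ht, map_add, map_one, map_mul, map_ofNat, map_pow]
    rw [e3, Pool.Agent.H723R3.valued_algebraMap] at hfin
    exact absurd hfin (not_le.2 (h w h3 r'))
  have hb : (E0 k).baseChange (w.adicCompletion k) = E0 (w.adicCompletion k) := E0_map _
  have hnm : ¬ (((E0 k).baseChange (w.adicCompletion k)).minimal
      (w.adicCompletionIntegers k)).HasMultiplicativeReduction (w.adicCompletionIntegers k) := by
    refine not_mult _ _ ?_
    rw [hb]
    exact E0_c₄ _
  have hns : ¬ (((E0 k).baseChange (w.adicCompletion k)).minimal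
      (w.adicCompletionIntegers k)).HasSplitMultiplicativeReduction (w.adicCompletionIntegers k) :=
    fun h => hnm h.toHasMultiplicativeReduction
  constructor
  · unfold aV Pool.Agent.W189.NF.aLoc
    rw [if_neg hng, if_neg hns, if_neg hnm]
  · unfold eV Pool.Agent.W189.NF.eLoc
    rw [if_neg hng]

/-- subfields -/
theorem ng_small {K : Type} [Field K] [NumberField K] [Algebra k K] (h : NG K) : NG k := by
  intro v hv r
  obtain ⟨w, hlo⟩ := exists_above (F := k) (K := K) v
  have hw := (three_below hlo).1 hv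
  have h3 := h w hw (algebraMap k K r)
  have h4 := HeightOneSpectrum.valuation_liesOver K v w (3 : k)
  have h5 := HeightOneSpectrum.valuation_liesOver K v w (1 + 4 * r ^ 3)
  rw [map_ofNat (algebraMap k K)] at h4
  have e : algebraMap k K (1 + 4 * r ^ 3) = 1 + 4 * algebraMap k K r ^ 3 := by
    rw [map_add, map_one, map_mul, map_ofNat, map_pow]
  rw [e] at h5
  rw [← h4, ← h5] at h3
  by_contra hcon
  push Not at hcon
  have h6 := pow_le_pow_left₀ zero_le hcon (v.asIdeal.ramificationIdx' w.asIdeal)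
  rw [← pow_mul, ← pow_mul] at h3 h6
  rw [mul_comm _ 3, mul_comm _ 2] at h3
  exact absurd h6 (not_le.2 h3)

/-- **extensions of 2-power degree of `ℚ(ζ₉)`** -/
theorem ng_nine {M K : Type} [Field M] [NumberField M] [IsCyclotomicExtension {9} ℚ M] [Field K]
    [NumberField K] [Algebra M K] [IsGalois M K] {n : ℕ} (hn : Module.finrank M K = 2 ^ n) :
    NG K := by
  intro w hw r
  have hf3 : Fact (Nat.Prime 3) := ⟨Nat.prime_three⟩
  have hcyc : IsCyclotomicExtension {3 ^ (1 + 1)} ℚ M := by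
    norm_num
    infer_instance
  obtain ⟨ζ, hζ⟩ := IsCyclotomicExtension.exists_isPrimitiveRoot ℚ M
    (Set.mem_singleton (3 ^ (1 + 1))) (by norm_num)
  have hpr : Prime (hζ.toInteger - 1) := hζ.zeta_sub_one_prime
  -- the equation
  have h9 : ζ ^ 6 + ζ ^ 3 + 1 = 0 := by
    have h1 : ζ ^ 9 = 1 := by
      have := hζ.pow_eq_one
      norm_num at this
      exact this
    have h2 : ζ ^ 3 ≠ 1 := hζ.pow_ne_one_of_pos_of_lt (by norm_num) (by norm_num)
    have h3 : (ζ ^ 3 - 1) * (ζ ^ 6 + ζ ^ 3 + 1) = 0 := by linear_combination h1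
    exact (mul_eq_zero.1 h3).resolve_left (sub_ne_zero.2 h2)
  let v₀ : HeightOneSpectrum (𝓞 M) := ⟨w.asIdeal.under (𝓞 M), inferInstance, by
    intro h
    exact w.ne_bot (Ideal.eq_bot_of_comap_eq_bot h)⟩
  have hlo : w.asIdeal.LiesOver v₀.asIdeal := ⟨rfl⟩
  have h3v : (3 : 𝓞 M) ∈ v₀.asIdeal := (three_below hlo).2 hw
  -- the prime above three
  have hP : (1 - hζ.toInteger) ^ 6 = -(3 * (1 + (1 - hζ.toInteger) * (-3 + (1 - hζ.toInteger) *
      (6 + (1 - hζ.toInteger) * (-7 + (1 - hζ.toInteger) * (5 + (1 - hζ.toInteger) * (-2))))))) := by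
    have h9' : hζ.toInteger ^ 6 + hζ.toInteger ^ 3 + 1 = 0 := by
      apply RingOfIntegers.ext
      push_cast
      exact h9
    linear_combination h9'
  have hmem : hζ.toInteger - 1 ∈ v₀.asIdeal := by
    have h1 : (1 - hζ.toInteger) ^ 6 ∈ v₀.asIdeal := by
      rw [hP]
      exact neg_mem (Ideal.mul_mem_right _ _ h3v)
    have h2 := v₀.isPrime.mem_of_pow_mem _ h1
    rw [← neg_sub]
    exact neg_mem h2
  have hspan : v₀.asIdeal = Ideal.span {hζ.toInteger - 1} := by
    have h1 : (Ideal.span {hζ.toInteger - 1}).IsPrime :=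
      (Ideal.span_singleton_prime hpr.ne_zero).2 hpr
    have h2 : (Ideal.span {hζ.toInteger - 1}).IsMaximal := h1.isMaximal (by
      rw [Ne, Ideal.span_singleton_eq_bot]
      exact hpr.ne_zero)
    exact (h2.eq_of_le v₀.isPrime.ne_top ((Ideal.span_singleton_le_iff_mem _).2 hmem)).symm
  have hv : v₀.valuation M (1 - ζ) = exp (-1 : ℤ) := by
    have h1 : (1 : M) - ζ = -algebraMap (𝓞 M) M (hζ.toInteger - 1) := by
      rw [map_sub, map_one]
      change _ = -(ζ - 1)
      ring
    rw [h1, Valuation.map_neg, HeightOneSpectrum.valuation_of_algebraMap]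
    exact HeightOneSpectrum.intValuation_singleton v₀ hpr.ne_zero hspan
  -- the ramification index
  have he : ¬ 3 ∣ v₀.asIdeal.ramificationIdx' w.asIdeal := by
    have hmax : v₀.asIdeal.IsMaximal := v₀.isMaximal
    have hfin : Finite (𝓞 M ⧸ v₀.asIdeal) := Ideal.finiteQuotientOfFreeOfNeBot _ v₀.ne_bot
    have hfr : Finite v₀.asIdeal.ResidueField := by
      have e := Ideal.bijective_algebraMap_quotient_residueField v₀.asIdeal
      exact Finite.of_surjective _ e.2
    have hperf : PerfectField v₀.asIdeal.ResidueField := inferInstance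
    have h3 : Ideal.ramificationIdx' v₀.asIdeal w.asIdeal =
        Nat.card (w.asIdeal.inertia Gal(K/M)) := by
      rw [Ideal.card_inertia_eq_ramificationIdxIn v₀.asIdeal w.asIdeal,
        Ideal.ramificationIdxIn_eq_ramificationIdx v₀.asIdeal w.asIdeal Gal(K/M),
        Ideal.ramificationIdx'_eq_ramificationIdx _ _ v₀.ne_bot]
    have h4 : Nat.card (w.asIdeal.inertia Gal(K/M)) ∣ 2 ^ n := by
      rw [← hn, ← IsGalois.card_aut_eq_finrank]
      exact Subgroup.card_subgroup_dvd_card _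
    rw [h3]
    intro h
    have h5 : 3 ∣ 2 := Nat.prime_three.dvd_of_dvd_pow (h.trans h4)
    omega
  refine key_val (w.valuation K) (z := algebraMap M K ζ) ?_ he ?_ r
  · rw [← map_pow, ← map_pow, ← map_add, ← map_one (algebraMap M K), ← map_add, h9, map_zero]
  · have h1 := HeightOneSpectrum.valuation_liesOver K v₀ w (1 - ζ)
    rw [hv, map_sub, map_one, ← exp_nsmul] at h1
    rw [← h1]
    congr 1
    simp

end

end Pool.Agent.K7.H70.SM
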