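import Pool.Agent.K7.H70.SM.C

/-!
# The cubic extension `N(ζ₉)/N`: the factorization of the L-function
-/

set_option autoImplicit false
set_option linter.unusedSectionVars false

open Complex NumberField IsDedekindDomain
open scoped PeriodPair nonZeroDivisors

namespace Pool.Agent.K7.H70.SM

open Pool.Agent.K7.H56
open Pool.Agent.K7.H56.P
open Pool.Agent.R430
open Pool.Agent.Y696 Pool.Agent.W192.HK Pool.Agent.TH936.CM H667R3
open Pool.Agent.TH936.PU
open Pool.Agent.K7.H70.AS (VV_prod mero_eq2 gI_diff hX1)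
open Pool.Agent.K7.H56.M (gI_over Rm)

/-- a primitive third root of unity -/
noncomputable def rh : ℂ := Complex.exp (2 * Real.pi * Complex.I / 3)

lemma rh_prim : IsPrimitiveRoot rh 3 := by
  have h := Complex.isPrimitiveRoot_exp 3 (by norm_num)
  unfold rh
  push_cast at h
  exact h

lemma rh_cube : rh ^ 3 = 1 := rh_prim.pow_eq_one

lemma rh_sum : rh ^ 2 + rh + 1 = 0 := by
  have h1 : rh ≠ 1 := rh_prim.ne_one (by norm_num)
  have h2 : (rh - 1) * (rh ^ 2 + rh + 1) = 0 := by linear_combination rh_cube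
  exact (mul_eq_zero.1 h2).resolve_left (sub_ne_zero.2 h1)

section
variable {N : Type} [Field N] [NumberField N]

/-- a cube root of unity -/
lemma exists_om (ι : Pool.Agent.Y688.RR →+* 𝓞 N) : ∃ ω : 𝓞 N, ω ^ 2 + ω + 1 = 0 :=
  ⟨iE ι omr, by rw [← map_pow, ← map_add, ← map_one (iE ι), ← map_add, omr_sq, map_zero]⟩

/-- the norms of the primes -/
lemma nm_mod3 {ω : 𝓞 N} (hω : ω ^ 2 + ω + 1 = 0) {v : HeightOneSpectrum (𝓞 N)}
    (h3 : (3 : 𝓞 N) ∉ v.asIdeal) : Ideal.absNorm v.asIdeal % 3 = 1 := by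
  classical
  have hmax : v.asIdeal.IsMaximal := v.isPrime.isMaximal v.ne_bot
  have hfin : Finite (𝓞 N ⧸ v.asIdeal) := Ideal.finiteQuotientOfFreeOfNeBot _ v.ne_bot
  let _ : Field (𝓞 N ⧸ v.asIdeal) := Ideal.Quotient.field _
  set z : 𝓞 N ⧸ v.asIdeal := Ideal.Quotient.mk _ ω with hz
  have h1 : z ^ 2 + z + 1 = 0 := by
    rw [hz, ← map_pow, ← map_add, ← map_one (Ideal.Quotient.mk v.asIdeal), ← map_add, hω, map_zero]
  have h30 : (3 : 𝓞 N ⧸ v.asIdeal) ≠ 0 := by
    intro h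
    apply h3
    rw [← Ideal.Quotient.eq_zero_iff_mem, map_ofNat]
    exact h
  have hz1 : z ≠ 1 := by
    intro h
    rw [h] at h1
    apply h30
    linear_combination h1
  have hz3 : z ^ 3 = 1 := by linear_combination (z - 1) * h1
  have hz0 : z ≠ 0 := by
    intro h
    rw [h] at h1
    norm_num at h1
  have ho : orderOf (Units.mk0 z hz0) = 3 := by
    have := Fact.mk Nat.prime_three
    refine orderOf_eq_prime ?_ ?_
    · apply Units.ext
      rw [Units.val_pow_eq_pow_val, Units.val_mk0, hz3, Units.val_one]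
    · intro h
      apply hz1
      have := congrArg Units.val h
      rwa [Units.val_mk0, Units.val_one] at this
  have h4 : 3 ∣ Nat.card (𝓞 N ⧸ v.asIdeal)ˣ := by
    rw [← ho]
    exact orderOf_dvd_natCard _
  rw [Nat.card_units] at h4
  have h5 : Ideal.absNorm v.asIdeal = Nat.card (𝓞 N ⧸ v.asIdeal) := by
    rw [Ideal.absNorm_apply, Submodule.cardQuot_apply]
  have h6 : 1 ≤ Nat.card (𝓞 N ⧸ v.asIdeal) := Nat.card_pos
  rw [h5]
  omega

/-- the norms of the ideals prime to three -/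
lemma abs_mod3 {ω : 𝓞 N} (hω : ω ^ 2 + ω + 1 = 0) (I : Ideal (𝓞 N))
    (h3 : IsCoprime I (Ideal.span {((3 : ℕ) : 𝓞 N)})) : Ideal.absNorm I % 3 = 1 := by
  induction I using UniqueFactorizationMonoid.induction_on_prime with
  | h₁ =>
    exfalso
    have h1 : (⊥ : Ideal (𝓞 N)) ⊔ Ideal.span {((3 : ℕ) : 𝓞 N)} = ⊤ := Ideal.isCoprime_iff_sup_eq.1 h3
    rw [bot_sup_eq, Ideal.span_singleton_eq_top] at h1
    exact not_unit_nat (by norm_num) h1
  | h₂ I hI =>
    rw [Ideal.isUnit_iff] at hI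
    rw [hI, Ideal.absNorm_top]
  | h₃ I P hI hP ih =>
    have hc := IsCoprime.mul_left_iff.1 h3
    have hPp : P.IsPrime := Ideal.isPrime_of_prime hP
    let v : HeightOneSpectrum (𝓞 N) := ⟨P, hPp, hP.ne_zero⟩
    have h4 := nm_mod3 hω (v := v) (by
      have := (prime_cop_iff 3 v).1 hc.1
      exact_mod_cast this)
    have h5 := ih hc.2
    rw [map_mul, Nat.mul_mod, h5]
    have h6 : Ideal.absNorm P % 3 = 1 := h4
    rw [h6]

/-- the cubic character -/
noncomputable def X9 (i : ℕ) (I : Ideal (𝓞 N)) : ℂ := by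
  classical
  exact if IsCoprime I (Ideal.span {((3 : ℕ) : 𝓞 N)}) then rh ^ (i * ((Ideal.absNorm I - 1) / 3)) else 0

lemma X9_pos {i : ℕ} {I : Ideal (𝓞 N)} (h : IsCoprime I (Ideal.span {((3 : ℕ) : 𝓞 N)})) :
    X9 i I = rh ^ (i * ((Ideal.absNorm I - 1) / 3)) := by
  unfold X9
  rw [if_pos h]

lemma X9_neg {i : ℕ} {I : Ideal (𝓞 N)} (h : ¬ IsCoprime I (Ideal.span {((3 : ℕ) : 𝓞 N)})) :
    X9 i I = 0 := by
  unfold X9
  rw [if_neg h]

lemma rh_mod {a b : ℕ} (h : a % 3 = b % 3) : rh ^ a = rh ^ b := by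
  rw [pow_eq_pow_mod a rh_cube, pow_eq_pow_mod b rh_cube, h]

lemma norm_cong {m : ℕ} {α β : 𝓞 N} (h : (m : 𝓞 N) ∣ α - β) :
    (m : ℤ) ∣ Algebra.norm ℤ α - Algebra.norm ℤ β := by
  obtain ⟨γ, hγ⟩ := h
  have hα : α = β + (m : 𝓞 N) * γ := by linear_combination hγ
  let b := RingOfIntegers.basis N
  have e : ∀ x : 𝓞 N, ((Algebra.norm ℤ x : ℤ) : ZMod m) =
      ((Int.castRingHom (ZMod m)).mapMatrix (Algebra.leftMulMatrix b x)).det := by
    intro x
    rw [← RingHom.map_det, ← Algebra.norm_eq_matrix_det]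
    rfl
  rw [← ZMod.intCast_zmod_eq_zero_iff_dvd]
  push_cast
  rw [e, e, sub_eq_zero, hα, map_add, map_mul, map_natCast, map_add, map_mul, map_natCast]
  congr 1
  have : ((m : ℕ) : Matrix (Module.Free.ChooseBasisIndex ℤ (𝓞 N))
      (Module.Free.ChooseBasisIndex ℤ (𝓞 N)) (ZMod m)) = 0 := by
    ext i j
    rw [Matrix.natCast_apply]
    simp
  rw [this, zero_mul, add_zero]

/-- the cubic character is periodic -/
theorem X9_ih {ω : 𝓞 N} (hω : ω ^ 2 + ω + 1 = 0) (i : ℕ) : IH (N := N) 9 (X9 i) where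
  mul I J := by
    by_cases hI : IsCoprime I (Ideal.span {((3 : ℕ) : 𝓞 N)})
    · by_cases hJ : IsCoprime J (Ideal.span {((3 : ℕ) : 𝓞 N)})
      · rw [X9_pos hI, X9_pos hJ, X9_pos (IsCoprime.mul_left hI hJ), ← pow_add]
        apply rh_mod
        have h1 := abs_mod3 hω I hI
        have h2 := abs_mod3 hω J hJ
        obtain ⟨a, ha⟩ : ∃ a, Ideal.absNorm I = 3 * a + 1 := ⟨Ideal.absNorm I / 3, by omega⟩
        obtain ⟨b, hb⟩ : ∃ b, Ideal.absNorm J = 3 * b + 1 := ⟨Ideal.absNorm J / 3, by omega⟩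
        have e1 : (Ideal.absNorm I - 1) / 3 = a := by rw [ha]; omega
        have e2 : (Ideal.absNorm J - 1) / 3 = b := by rw [hb]; omega
        have e3 : (Ideal.absNorm (I * J) - 1) / 3 = a + b + 3 * (a * b) := by
          rw [map_mul, ha, hb]
          have : (3 * a + 1) * (3 * b + 1) - 1 = 3 * (a + b + 3 * (a * b)) := by
            have : (3 * a + 1) * (3 * b + 1) = 3 * (a + b + 3 * (a * b)) + 1 := by ring
            omega
          rw [this, Nat.mul_div_cancel_left _ (by norm_num)]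
        rw [e1, e2, e3]
        have : i * (a + b + 3 * (a * b)) = i * a + i * b + 3 * (i * (a * b)) := by ring
        rw [this, Nat.add_mul_mod_self_left]
      · rw [X9_neg hJ, mul_zero, X9_neg]
        exact fun h => hJ (IsCoprime.mul_left_iff.1 h).2
    · rw [X9_neg hI, zero_mul, X9_neg]
      exact fun h => hI (IsCoprime.mul_left_iff.1 h).1
  top := by
    have h : IsCoprime (⊤ : Ideal (𝓞 N)) (Ideal.span {((3 : ℕ) : 𝓞 N)}) := by
      rw [Ideal.isCoprime_iff_sup_eq, top_sup_eq]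
    rw [X9_pos h, Ideal.absNorm_top]
    simp
  cong α β h := by
    have h3 : Ideal.span {α} ⊔ Ideal.span {((3 : ℕ) : 𝓞 N)} =
        Ideal.span {β} ⊔ Ideal.span {((3 : ℕ) : 𝓞 N)} := by
      obtain ⟨γ, hγ⟩ := h
      have h9 : ((9 : ℕ) : 𝓞 N) * γ ∈ Ideal.span {((3 : ℕ) : 𝓞 N)} := by
        rw [Ideal.mem_span_singleton]
        exact ⟨3 * γ, by push_cast; ring⟩
      apply le_antisymm
      · refine sup_le ?_ le_sup_right
        rw [Ideal.span_singleton_le_iff_mem]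
        have e : α = β + ((9 : ℕ) : 𝓞 N) * γ := by rw [← hγ]; ring
        rw [e]
        exact Ideal.add_mem _ (Ideal.mem_sup_left (Ideal.mem_span_singleton_self _))
          (Ideal.mem_sup_right h9)
      · refine sup_le ?_ le_sup_right
        rw [Ideal.span_singleton_le_iff_mem]
        have e : β = α - ((9 : ℕ) : 𝓞 N) * γ := by rw [← hγ]; ring
        rw [e]
        exact Ideal.sub_mem _ (Ideal.mem_sup_left (Ideal.mem_span_singleton_self _))
          (Ideal.mem_sup_right h9)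
    by_cases hα : IsCoprime (Ideal.span {α}) (Ideal.span {((3 : ℕ) : 𝓞 N)})
    · have hβ : IsCoprime (Ideal.span {β}) (Ideal.span {((3 : ℕ) : 𝓞 N)}) := by
        rw [Ideal.isCoprime_iff_sup_eq] at hα ⊢
        rw [← h3, hα]
      rw [X9_pos hα, X9_pos hβ]
      apply rh_mod
      have h1 := abs_mod3 hω _ hα
      have h2 := abs_mod3 hω _ hβ
      rw [Ideal.absNorm_span_singleton] at h1 h2 ⊢
      rw [Ideal.absNorm_span_singleton]
      have h4 := norm_cong h
      have h5 : (((Algebra.norm ℤ α).natAbs - 1) / 3) % 3 = (((Algebra.norm ℤ β).natAbs - 1) / 3) % 3 := by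
        omega
      rw [Nat.mul_mod, h5, ← Nat.mul_mod]
    · have hβ : ¬ IsCoprime (Ideal.span {β}) (Ideal.span {((3 : ℕ) : 𝓞 N)}) := by
        rw [Ideal.isCoprime_iff_sup_eq] at hα ⊢
        rwa [← h3]
      rw [X9_neg hα, X9_neg hβ]
  val I := by
    by_cases hI : IsCoprime I (Ideal.span {((3 : ℕ) : 𝓞 N)})
    · refine Or.inr ⟨3, by norm_num, ?_⟩
      rw [X9_pos hI, ← pow_mul, mul_comm, pow_mul, rh_cube, one_pow]
    · exact Or.inl (X9_neg hI)
  ne I hI := by
    rw [X9_pos (cop_dvd (n := 3) (m := 9) (by norm_num) hI)]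
    exact pow_ne_zero _ (fun h => by
      have := rh_cube
      rw [h] at this
      norm_num at this)

end

section ext
variable {N K : Type} [Field N] [NumberField N] [Field K] [NumberField K] [Algebra N K]
  [IsGalois N K] {ι : Pool.Agent.Y688.RR →+* 𝓞 N}

/-- the powers of a ninth root of unity modulo a prime -/
lemma pow_inj9 {z : 𝓞 K} (hz : IsPrimitiveRoot z 9) {w : HeightOneSpectrum (𝓞 K)}
    (h3 : (3 : 𝓞 K) ∉ w.asIdeal) {a b : ℕ} (h : z ^ a - z ^ b ∈ w.asIdeal) : z ^ a = z ^ b := by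
  wlog hab : b ≤ a generalizing a b with H
  · exact (H (by rw [← neg_sub]; exact neg_mem h) (by omega)).symm
  obtain ⟨c, rfl⟩ := Nat.exists_eq_add_of_le hab
  have hzu : IsUnit z := hz.isUnit (by norm_num)
  have h1 : z ^ b * (1 - z ^ c) ∈ w.asIdeal := by
    have e : z ^ b * (1 - z ^ c) = -(z ^ (b + c) - z ^ b) := by rw [pow_add]; ring
    rw [e]
    exact neg_mem h
  have h2 : 1 - z ^ c ∈ w.asIdeal := by
    refine (w.isPrime.mem_or_mem h1).resolve_left fun h0 => ?_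
    exact w.isPrime.ne_top (Ideal.eq_top_of_isUnit_mem _ h0 (hzu.pow b))
  by_contra hne
  have h4 : ¬ 9 ∣ c := by
    intro hd
    apply hne
    obtain ⟨d, rfl⟩ := hd
    rw [pow_add, pow_mul, hz.pow_eq_one, one_pow, mul_one]
  have h5 : z ^ c = z ^ (c % 9) := pow_eq_pow_mod c hz.pow_eq_one
  have h6 : ∏ k ∈ Finset.range 8, (1 - z ^ (k + 1)) = ((8 : ℕ) : 𝓞 K) + 1 :=
    hz.prod_one_sub_pow_eq_order
  have h7 : c % 9 - 1 ∈ Finset.range 8 := by
    rw [Finset.mem_range]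
    omega
  have h8 : (1 - z ^ (c % 9 - 1 + 1)) ∣ ((8 : ℕ) : 𝓞 K) + 1 := by
    rw [← h6]
    exact Finset.dvd_prod_of_mem (fun k => 1 - z ^ (k + 1)) h7
  have h9 : c % 9 - 1 + 1 = c % 9 := by omega
  rw [h9, ← h5] at h8
  have h10 : (3 : 𝓞 K) * 3 ∈ w.asIdeal := by
    obtain ⟨t, ht⟩ := h8
    have e : (3 : 𝓞 K) * 3 = (1 - z ^ c) * t := by
      rw [← ht]
      push_cast
      ring
    rw [e]
    exact Ideal.mul_mem_right _ _ h2
  rcases w.isPrime.mem_or_mem h10 with h | h <;> exact h3 h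

variable (h3d : Module.finrank N K = 3) {z : 𝓞 K} (hz : IsPrimitiveRoot z 9)
  (hgen : ∀ σ : Gal(K/N), σ • z = z → σ = 1)
include h3d hz hgen

lemma comm3 (σ τ : Gal(K/N)) : σ * τ = τ * σ := by
  have := Fact.mk Nat.prime_three
  have hc : IsCyclic Gal(K/N) := isCyclic_of_prime_card (p := 3) (by
    rw [IsGalois.card_aut_eq_finrank, h3d])
  exact (IsCyclic.commGroup (α := Gal(K/N))).mul_comm σ τ

lemma unr9 {w : HeightOneSpectrum (𝓞 K)} (h3 : (3 : 𝓞 K) ∉ w.asIdeal) (σ : Gal(K/N))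
    (hσ : ∀ x : 𝓞 K, σ • x - x ∈ w.asIdeal) : σ = 1 := by
  apply hgen
  have h1 : (σ • z) ^ 9 = 1 := by rw [← smul_pow', hz.pow_eq_one, smul_one]
  obtain ⟨i, -, hi⟩ := hz.eq_pow_of_pow_eq_one h1
  rw [← hi]
  have h2 := hσ z
  rw [← hi] at h2
  have h4 := pow_inj9 hz h3 (a := i) (b := 1) (by rwa [pow_one])
  rw [h4, pow_one]

/-- the primes above a prime not above three -/
theorem split9 {P : HeightOneSpectrum (𝓞 N)} (h3 : (3 : 𝓞 N) ∉ P.asIdeal) :
    (∀ w : HeightOneSpectrum (𝓞 K), und w = P → nK w = nK P ^ orderOf (frP K P.asIdeal)) ∧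
    Fintype.card {w : HeightOneSpectrum (𝓞 K) // und w = P} = 3 / orderOf (frP K P.asIdeal) := by
  classical
  have hcard : Nat.card Gal(K/N) = 3 := by rw [IsGalois.card_aut_eq_finrank, h3d]
  have hpmax : P.asIdeal.IsMaximal := P.isPrime.isMaximal P.ne_bot
  have hfp : Finite (𝓞 N ⧸ P.asIdeal) := Ideal.finiteQuotientOfFreeOfNeBot P.asIdeal P.ne_bot
  obtain ⟨w0, hw0, hfr⟩ := frP_spec (K := K) P
  have key : ∀ v : HeightOneSpectrum (𝓞 K), und v = P →
      nK v = nK P ^ orderOf (frP K P.asIdeal) ∧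
      (P.asIdeal.primesOver (𝓞 K)).ncard * orderOf (frP K P.asIdeal) = 3 := by
    intro v hv
    have hvmax : v.asIdeal.IsMaximal := v.isPrime.isMaximal v.ne_bot
    have hfv : Finite (𝓞 K ⧸ v.asIdeal) := Ideal.finiteQuotientOfFreeOfNeBot v.asIdeal v.ne_bot
    have hover : v.asIdeal.LiesOver P.asIdeal := ⟨by rw [← hv]; rfl⟩
    have h3v : (3 : 𝓞 K) ∉ v.asIdeal := by
      intro h
      apply h3
      rw [hover.over, Ideal.under_def, Ideal.mem_comap, map_ofNat]
      exact h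
    have h5 := Pool.Agent.W164.RC.split_abs Gal(K/N) P.asIdeal v.asIdeal
      (fun g hg => unr9 h3d hz hgen h3v g hg) (frP K P.asIdeal) (by
      intro x
      have h6 := frob_all (comm3 h3d hz hgen) (w0 := w0) (w := v) (by
        have h7 : Pool.Agent.Y688.dn N w0 = und v := hw0.trans hv.symm
        exact congrArg HeightOneSpectrum.asIdeal h7) hfr x
      rw [Ideal.absNorm_apply, Submodule.cardQuot_apply] at h6
      exact h6)
    rw [hcard] at h5
    refine ⟨?_, h5.2⟩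
    rw [← card_nm, ← card_nm]
    exact h5.1
  refine ⟨fun v hv => (key v hv).1, ?_⟩
  have hv0 : und w0 = P := hw0
  have h6 := (key w0 hv0).2
  have h7 : Fintype.card {v : HeightOneSpectrum (𝓞 K) // und v = P} =
      (P.asIdeal.primesOver (𝓞 K)).ncard := by
    rw [← Nat.card_eq_fintype_card, ← Nat.card_coe_set_eq]
    refine Nat.card_congr
      { toFun := fun v => ⟨v.1.asIdeal, v.1.isPrime,
          ⟨(congrArg HeightOneSpectrum.asIdeal v.2).symm⟩⟩
        invFun := fun Q => ⟨⟨Q.1, Q.2.1, ?_⟩, ?_⟩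
        left_inv := fun v => rfl
        right_inv := fun Q => rfl }
    · have := Q.2.2
      exact Ideal.ne_bot_of_liesOver_of_ne_bot P.ne_bot Q.1
    · apply HeightOneSpectrum.ext
      exact Q.2.2.over.symm
  rw [h7, ← h6, Nat.mul_div_cancel _ (orderOf_pos _)]

/-- the Frobenius -/
lemma frob9 {P : HeightOneSpectrum (𝓞 N)} (h3 : (3 : 𝓞 N) ∉ P.asIdeal) :
    frP K P.asIdeal = 1 ↔ Ideal.absNorm P.asIdeal % 9 = 1 := by
  obtain ⟨w0, hw0, hfr⟩ := frP_spec (K := K) P
  have h3v : (3 : 𝓞 K) ∉ w0.asIdeal := by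
    intro h
    apply h3
    have e : P.asIdeal = w0.asIdeal.under (𝓞 N) := by rw [← hw0]; rfl
    rw [e, Ideal.under_def, Ideal.mem_comap, map_ofNat]
    exact h
  have h1 : (frP K P.asIdeal • z) ^ 9 = 1 := by rw [← smul_pow', hz.pow_eq_one, smul_one]
  obtain ⟨i, hi9, hi⟩ := hz.eq_pow_of_pow_eq_one h1
  have h2 := hfr z
  rw [← hi] at h2
  have h4 : frP K P.asIdeal • z = z ^ Ideal.absNorm P.asIdeal := by
    rw [← hi]
    exact pow_inj9 hz h3v h2
  constructor
  · intro h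
    rw [h, one_smul] at h4
    have h5 : z ^ (Ideal.absNorm P.asIdeal % 9) = z ^ 1 := by
      rw [pow_one, ← pow_eq_pow_mod _ hz.pow_eq_one]
      exact h4.symm
    exact hz.pow_inj (Nat.mod_lt _ (by norm_num)) (by norm_num) h5
  · intro h
    apply hgen
    rw [h4, pow_eq_pow_mod _ hz.pow_eq_one, h, pow_one]

/-- the factors over a prime -/
lemma fib9 (s : ℂ) (P : HeightOneSpectrum (𝓞 N)) :
    ∏ w : {w : HeightOneSpectrum (𝓞 K) // und w = P},
      (1 - gI ((algebraMap (𝓞 N) (𝓞 K)).comp ι) (X0 1) s w.1.asIdeal) =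
    (1 - gI ι (X0 1) s P.asIdeal) * (1 - gI ι (X9 1) s P.asIdeal) * (1 - gI ι (X9 2) s P.asIdeal) := by
  classical
  by_cases h3 : (3 : 𝓞 N) ∈ P.asIdeal
  · have h0 : ∀ X : Ideal (𝓞 N) → ℂ, gI ι X s P.asIdeal = 0 := by
      intro X
      unfold gI
      rw [PN_three h3, mul_zero, zero_mul]
    rw [h0, h0, h0]
    simp only [sub_zero, mul_one]
    refine Finset.prod_eq_one fun w _ => ?_
    have h3w : (3 : 𝓞 K) ∈ w.1.asIdeal := by
      have h4 : w.1.asIdeal.under (𝓞 N) = P.asIdeal := congrArg HeightOneSpectrum.asIdeal w.2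
      rw [← h4, Ideal.under_def, Ideal.mem_comap, map_ofNat] at h3
      exact h3
    unfold gI
    rw [PN_three h3w, mul_zero, zero_mul, sub_zero]
  · obtain ⟨h4, h5⟩ := split9 h3d hz hgen h3
    have hcop : IsCoprime P.asIdeal (Ideal.span {((3 : ℕ) : 𝓞 N)}) :=
      (prime_cop_iff 3 P).2 (by exact_mod_cast h3)
    have hX : ∀ i : ℕ, gI ι (X9 i) s P.asIdeal =
        rh ^ (i * ((Ideal.absNorm P.asIdeal - 1) / 3)) * gI ι (X0 1) s P.asIdeal := by
      intro i
      unfold gI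
      rw [X9_pos hcop, hX1]
      ring
    have h6 : ∀ w : {w : HeightOneSpectrum (𝓞 K) // und w = P},
        (1 - gI ((algebraMap (𝓞 N) (𝓞 K)).comp ι) (X0 1) s w.1.asIdeal) =
        1 - (gI ι (X0 1) s P.asIdeal) ^ orderOf (frP K P.asIdeal) := fun w => by
      rw [gI_over w.2 (h4 w.1 w.2)]
    rw [Finset.prod_congr rfl (fun w _ => h6 w), Finset.prod_const, Finset.card_univ, h5, hX, hX]
    set g := gI ι (X0 1) s P.asIdeal with hg
    have hcard : Nat.card Gal(K/N) = 3 := by rw [IsGalois.card_aut_eq_finrank, h3d]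
    have hdvd : orderOf (frP K P.asIdeal) ∣ 3 := by
      rw [← hcard]
      exact orderOf_dvd_natCard _
    obtain ⟨ω, hω⟩ := exists_om ι
    have hm3 : Ideal.absNorm P.asIdeal % 3 = 1 := nm_mod3 hω h3
    rcases (Nat.dvd_prime Nat.prime_three).1 hdvd with h | h
    · have h1 : frP K P.asIdeal = 1 := orderOf_eq_one_iff.1 h
      have h9 := (frob9 h3d hz hgen h3).1 h1
      have e1 : ∀ i : ℕ, rh ^ (i * ((Ideal.absNorm P.asIdeal - 1) / 3)) = 1 := by
        intro i
        have e2 : (i * ((Ideal.absNorm P.asIdeal - 1) / 3)) % 3 = 0 % 3 := by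
          rw [Nat.mul_mod]
          have : ((Ideal.absNorm P.asIdeal - 1) / 3) % 3 = 0 := by omega
          rw [this, mul_zero]
        rw [rh_mod e2, pow_zero]
      rw [h, e1, e1]
      norm_num
      ring
    · have h1 : frP K P.asIdeal ≠ 1 := by
        intro h0
        rw [h0, orderOf_one] at h
        exact absurd h (by norm_num)
      have h9 : ¬ Ideal.absNorm P.asIdeal % 9 = 1 := fun h9 => h1 ((frob9 h3d hz hgen h3).2 h9)
      have hc : ((Ideal.absNorm P.asIdeal - 1) / 3) % 3 = 1 ∨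
          ((Ideal.absNorm P.asIdeal - 1) / 3) % 3 = 2 := by omega
      have hs := rh_sum
      have h3' := rh_cube
      rw [h]
      rcases hc with hc | hc
      · have e1 : rh ^ (1 * ((Ideal.absNorm P.asIdeal - 1) / 3)) = rh ^ 1 :=
          rh_mod (by rw [one_mul, hc])
        have e2 : rh ^ (2 * ((Ideal.absNorm P.asIdeal - 1) / 3)) = rh ^ 2 :=
          rh_mod (by rw [Nat.mul_mod, hc])
        rw [e1, e2]
        norm_num
        linear_combination (g - g ^ 2 * rh) * hs + g ^ 3 * h3'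
      · have e1 : rh ^ (1 * ((Ideal.absNorm P.asIdeal - 1) / 3)) = rh ^ 2 :=
          rh_mod (by rw [one_mul, hc])
        have e2 : rh ^ (2 * ((Ideal.absNorm P.asIdeal - 1) / 3)) = rh ^ 1 :=
          rh_mod (by rw [Nat.mul_mod, hc])
        rw [e1, e2]
        norm_num
        linear_combination (g - g ^ 2 * rh) * hs + g ^ 3 * h3'

/-- **the factorization of the L-function** -/
theorem L_prod9 {F f g1 g2 : ℂ → ℂ} (hF : VV ((algebraMap (𝓞 N) (𝓞 K)).comp ι) (X0 1) F)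
    (hf : VV ι (X0 1) f)
    (hg1 : VV ι (X9 1) g1) (hg2 : VV ι (X9 2) g2) : F 1 = f 1 * g1 1 * g2 1 := by
  classical
  obtain ⟨ω, hω⟩ := exists_om ι
  refine mero_eq2 (g := fun s => f s * g1 s * g2 s) hF.mero
    (fun z hz => ((hf.mero z hz).mul (hg1.mero z hz)).mul (hg2.mero z hz))
    ?_ hF.an ((hf.an.mul hg1.an).mul hg2.an)
  intro s hs
  have k1 := VV_prod (X0_ic 1) hF hs
  have k2 := ((VV_prod (X0_ic 1) hf hs).mul (VV_prodh (X9_ih hω 1) hg1 hs)).mul
    (VV_prodh (X9_ih hω 2) hg2 hs)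
  have k3 : HasProd (fun x : (Σ P : HeightOneSpectrum (𝓞 N),
      {w : HeightOneSpectrum (𝓞 K) // und w = P}) =>
      (1 - gI ((algebraMap (𝓞 N) (𝓞 K)).comp ι) (X0 1) s x.2.1.asIdeal)⁻¹) (F s) :=
    ((Equiv.sigmaFiberEquiv (und (F := N) (K := K))).hasProd_iff (f := fun w : HeightOneSpectrum (𝓞 K) =>
      (1 - gI ((algebraMap (𝓞 N) (𝓞 K)).comp ι) (X0 1) s w.asIdeal)⁻¹)).2 k1
  have k4 : HasProd (fun P : HeightOneSpectrum (𝓞 N) =>
      ∏ w : {w : HeightOneSpectrum (𝓞 K) // und w = P},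
      (1 - gI ((algebraMap (𝓞 N) (𝓞 K)).comp ι) (X0 1) s w.1.asIdeal)⁻¹) (F s) :=
    k3.sigma fun P => hasProd_fintype _
  refine k4.unique (k2.congr_fun fun P => ?_)
  rw [Finset.prod_inv_distrib, fib9 h3d hz hgen s P, mul_inv, mul_inv]

end ext

end Pool.Agent.K7.H70.SM
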