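import Pool.Agent.K7.H70.SM.E

/-!
# All the subfields
-/

set_option autoImplicit false
set_option linter.unusedSectionVars false

open Complex NumberField IsDedekindDomain
open scoped PeriodPair nonZeroDivisors

namespace Pool.Agent.K7.H70.SM

open Pool.Agent.K7.H56
open Pool.Agent.K7.H56.P
open Pool.Agent.R430
open Pool.Agent.Y696 Pool.Agent.W192.HK Pool.Agent.TH936.CM H667R3
open Pool.Agent.TH936.PU
open Pool.Agent.K7.H70.AS
open Pool.Agent.Y688 (NI HL)
open Pool.Agent.K7.H56.M (unr2_down)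
open Pool.Agent.TH841.SH.D (Pt act)

lemma ne_of_base {N : Type} [Field N] [NumberField N] {ι : Pool.Agent.Y688.RR →+* 𝓞 N} {d : ℕ}
    (hB : Base ι d) {f : ℂ → ℂ} (hf : VV ι (X0 1) f) : f 1 ≠ 0 := by
  obtain ⟨V, hV⟩ := exists_over_two
  obtain ⟨Ω, hΩ, hC⟩ := exists_cur
  have h1 := hB f hf _ Ω hC _ V.valuation hV
  intro h0
  rw [h0, map_zero] at h1
  exact pow_ne_zero _ ((Valuation.ne_zero_iff _).2 hΩ) h1.symm

lemma exists_VV {N : Type} [Field N] [NumberField N] (ι : Pool.Agent.Y688.RR →+* 𝓞 N) {d : ℕ}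
    (hd : Module.finrank ℚ N = 2 * d) (hU : Unr2 N) : ∃ f : ℂ → ℂ, VV ι (X0 1) f := by
  obtain ⟨f, f'', hf, -, -⟩ := core_gen2 N ι d hd hU 1 (X0 1) (X0 1) (X0_ih 1) (X0_ih 1) odd_one
  exact ⟨f, hf⟩

section
variable {M K : Type} [Field M] [NumberField M] [IsCyclotomicExtension {9} ℚ M] [Field K]
  [NumberField K] [Algebra M K] [IsGalois M K]

/-- **the subfields with a cube root of unity** -/
theorem base_om (hb : Base9) {r : ℕ} (hr : Module.finrank M K = 2 ^ r) (hU : Unr2 K)
    (hG : Gd M K) {k : Type} [Field k] [NumberField k] [Algebra k K] {a : k} (ha : a ^ 2 = -3)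
    (ι : Pool.Agent.Y688.RR →+* 𝓞 k) :
    ∃ d : ℕ, Module.finrank ℚ k = 2 * d ∧ Base ι d := by
  by_cases ht : ∃ t : k, IsPrimitiveRoot t 9
  · obtain ⟨t, ht⟩ := ht
    obtain ⟨n, h1, h2⟩ := base_nine hb hr hU hG ht ι
    exact ⟨_, h1, h2⟩
  obtain ⟨ζ0, hζ0⟩ := exists_z9 M
  set ζ : K := algebraMap M K ζ0 with hζd
  have hζ : IsPrimitiveRoot ζ 9 := hζ0.map_of_injective (algebraMap M K).injective
  set T : IntermediateField k K := IntermediateField.adjoin k {ζ} with hT
  have hcyc : IsCyclotomicExtension {9} k T := hζ.intermediateField_adjoin_isCyclotomicExtension k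
  have hgal : IsGalois k T := IsCyclotomicExtension.isGalois {9} k T
  have hmem : ζ ∈ T := IntermediateField.mem_adjoin_simple_self k ζ
  set t : T := ⟨ζ, hmem⟩ with htd
  have htp : IsPrimitiveRoot t 9 := by
    refine IsPrimitiveRoot.of_map_of_injective (f := algebraMap T K) ?_ (algebraMap T K).injective
    exact hζ
  -- the cube
  have hz3 : ζ ^ 3 ≠ 1 := hζ.pow_ne_one_of_pos_of_lt (by norm_num) (by norm_num)
  have hz9 : ζ ^ 9 = 1 := hζ.pow_eq_one
  have hsum : (ζ ^ 3) ^ 2 + ζ ^ 3 + 1 = 0 := by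
    have h3 : (ζ ^ 3 - 1) * ((ζ ^ 3) ^ 2 + ζ ^ 3 + 1) = 0 := by linear_combination hz9
    exact (mul_eq_zero.1 h3).resolve_left (sub_ne_zero.2 hz3)
  obtain ⟨c, hc⟩ : ∃ c : k, algebraMap k K c = ζ ^ 3 := by
    have e1 : algebraMap k K a ^ 2 = -3 := by rw [← map_pow, ha, map_neg, map_ofNat]
    have e2 : (2 * ζ ^ 3 + 1 - algebraMap k K a) * (2 * ζ ^ 3 + 1 + algebraMap k K a) = 0 := by
      linear_combination 4 * hsum - e1
    rcases mul_eq_zero.1 e2 with h | h
    · refine ⟨(a - 1) / 2, ?_⟩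
      rw [map_div₀, map_sub, map_one, map_ofNat, div_eq_iff two_ne_zero]
      linear_combination -h
    · refine ⟨(-a - 1) / 2, ?_⟩
      rw [map_div₀, map_sub, map_neg, map_one, map_ofNat, div_eq_iff two_ne_zero]
      linear_combination -h
  have hirr : Irreducible (Polynomial.X ^ 3 - Polynomial.C c) := by
    rw [X_pow_sub_C_irreducible_iff_of_prime Nat.prime_three]
    intro b hb
    apply ht
    refine ⟨b, ?_⟩
    have hinj := (algebraMap k K).injective
    refine IsPrimitiveRoot.of_map_of_injective (f := algebraMap k K) ?_ hinj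
    have e3 : algebraMap k K b ^ 3 = ζ ^ 3 := by rw [← map_pow, hb, hc]
    have e9 : algebraMap k K b ^ 9 = 1 := by
      have : algebraMap k K b ^ 9 = (algebraMap k K b ^ 3) ^ 3 := by ring
      rw [this, e3, ← pow_mul]
      exact hz9
    refine IsPrimitiveRoot.mk_of_lt _ (by norm_num) e9 fun l hl0 hl9 h1 => ?_
    have h2 : orderOf (algebraMap k K b) ∣ 9 := orderOf_dvd_of_pow_eq_one e9
    have h3 : orderOf (algebraMap k K b) ∣ l := orderOf_dvd_of_pow_eq_one h1
    have h4 : orderOf (algebraMap k K b) ∣ 3 := by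
      have h5 : orderOf (algebraMap k K b) ∣ 3 ^ 2 := h2
      obtain ⟨j, hj, hj'⟩ := (Nat.dvd_prime_pow Nat.prime_three).1 h5
      rw [hj'] at h3 ⊢
      have h6 : j ≠ 2 := by
        rintro rfl
        have := Nat.le_of_dvd hl0 h3
        omega
      have h7 : j ≤ 1 := by omega
      calc 3 ^ j ∣ 3 ^ 1 := pow_dvd_pow 3 h7
        _ = 3 := pow_one 3
    have h5 : algebraMap k K b ^ 3 = 1 := orderOf_dvd_iff_pow_eq_one.1 h4
    rw [e3] at h5
    exact hz3 h5
  have hmin : minpoly k ζ = Polynomial.X ^ 3 - Polynomial.C c := by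
    refine (minpoly.eq_of_irreducible_of_monic hirr ?_ (Polynomial.monic_X_pow_sub_C _ three_ne_zero)).symm
    rw [map_sub, map_pow, Polynomial.aeval_X, Polynomial.aeval_C, hc, sub_self]
  have hint : IsIntegral k ζ := by
    refine ⟨Polynomial.X ^ 3 - Polynomial.C c, Polynomial.monic_X_pow_sub_C _ three_ne_zero, ?_⟩
    rw [Polynomial.eval₂_sub, Polynomial.eval₂_pow, Polynomial.eval₂_X, Polynomial.eval₂_C, hc,
      sub_self]
  have h3d : Module.finrank k T = 3 := by
    have h3 := IntermediateField.adjoin.finrank hint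
    rw [hmin, Polynomial.natDegree_X_pow_sub_C] at h3
    exact h3
  -- the field `T`
  obtain ⟨n, h1, h2⟩ := base_nine hb hr hU hG (T := T) htp ((algebraMap (𝓞 k) (𝓞 T)).comp ι)
  have hk : Module.finrank ℚ k = 2 * 2 ^ n := by
    have h4 := Module.finrank_mul_finrank ℚ k T
    rw [h1, h3d] at h4
    omega
  refine ⟨2 ^ n, hk, base_down hk (unr2_down (F := T) (K := K) hU) h3d (z := htp.toInteger)
    (IsPrimitiveRoot.toInteger_isPrimitiveRoot htp) (fun σ hσ => ?_) h2⟩
  have hσ' : σ t = t := congrArg (fun x : 𝓞 T => (x : T)) hσ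
  have key : (σ : T →ₐ[k] T) = AlgHom.id k T := by
    refine IntermediateField.algHom_ext_of_eq_adjoin k hT ?_
    intro x hx
    have hx' : x = ζ := hx
    subst hx'
    exact hσ'
  exact AlgEquiv.ext fun x => DFunLike.congr_fun key x

/-- **the rank part** over every subfield -/
theorem rank9 (hb : Base9) (hr : ∃ r : ℕ, Module.finrank M K = 2 ^ r) (hG : Gd M K)
    {k : Type} [Field k] [NumberField k] [Algebra k K] : RankZero (E27 k) := by
  obtain ⟨r, hr⟩ := hr
  have hGK : Gz K := (gz9 M).step hr hG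
  have hU : Unr2 K := hGK.two
  have hNG : NG K := ng_nine hr
  have h3 : Add3 k := add3_of_ng (ng_small hNG)
  have hfin : Finite (E27 k).toAffine.Point := by
    have h1 := hGK.pts_odd.1
    have e1 : (E0 k).baseChange K = E0 K := E0_map _
    have e2 : (E0 k).baseChange k = E0 k := E0_map _
    have hfin : Finite (Pt (E0 k) K) := by
      change Finite ((E0 k).baseChange K).toAffine.Point
      rw [e1]
      exact h1
    have hfin0 : Finite (Pt (E0 k) k) := Finite.of_injective _ (act_inj (E0 k) (Algebra.ofId k K))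
    have : Finite ((E0 k).baseChange k).toAffine.Point := hfin0
    rw [e2] at this
    exact this
  by_cases hns : ∀ x : k, x ^ 2 ≠ -3
  · obtain ⟨ω, hω⟩ := om9 M
    set a : K := algebraMap M K (2 * ω + 1) with haK
    have ha : a ^ 2 = -3 := by
      rw [haK, ← map_pow]
      have : (2 * ω + 1) ^ 2 = -3 := by linear_combination 4 * hω
      rw [this, map_neg, map_ofNat]
    set T : IntermediateField k K := IntermediateField.adjoin k {a} with hT
    have haT : a ∈ T := IntermediateField.mem_adjoin_simple_self k a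
    have haT' : (⟨a, haT⟩ : T) ^ 2 = -3 := Subtype.ext (by
      show a ^ 2 = algebraMap T K (-3)
      rw [map_neg, map_ofNat]
      exact ha)
    obtain ⟨ι'⟩ := exists_iota (N := T) ⟨((⟨a, haT⟩ : T) - 1) / 2, by
      field_simp
      linear_combination haT'⟩
    set ι : Pool.Agent.Y688.RR →+* 𝓞 T :=
      ι'.comp (RingEquiv.subringCongr RR_eis : Pool.Agent.Y688.RR →+* eis) with hι
    obtain ⟨d, hd, hB⟩ := base_om hb hr hU hG haT' ι
    obtain ⟨f, hf⟩ := exists_VV ι hd (unr2_down (F := T) (K := K) hU)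
    refine rankZero_of_ARZ (arz_small ι hf (ne_of_base hB hf) ?_ h3 hns) hfin
    have hirr : Irreducible (Polynomial.X ^ 2 - Polynomial.C (-3 : k)) := by
      rw [X_pow_sub_C_irreducible_iff_of_prime Nat.prime_two]
      exact fun b => hns b
    have hmin : minpoly k a = Polynomial.X ^ 2 - Polynomial.C (-3 : k) := by
      refine (minpoly.eq_of_irreducible_of_monic hirr ?_ (Polynomial.monic_X_pow_sub_C _ two_ne_zero)).symm
      rw [map_sub, map_pow, Polynomial.aeval_X, Polynomial.aeval_C, map_neg, map_ofNat, ha, sub_self]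
    have hint : IsIntegral k a := by
      refine ⟨Polynomial.X ^ 2 - Polynomial.C (-3 : k), Polynomial.monic_X_pow_sub_C _ two_ne_zero, ?_⟩
      rw [Polynomial.eval₂_sub, Polynomial.eval₂_pow, Polynomial.eval₂_X, Polynomial.eval₂_C, map_neg,
        map_ofNat, ha, sub_self]
    have h3 := IntermediateField.adjoin.finrank hint
    rw [hmin, Polynomial.natDegree_X_pow_sub_C] at h3
    exact h3
  · push Not at hns
    obtain ⟨a, ha⟩ := hns
    obtain ⟨ι'⟩ := exists_iota (N := k) ⟨(a - 1) / 2, by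
      field_simp
      linear_combination ha⟩
    set ι : Pool.Agent.Y688.RR →+* 𝓞 k :=
      ι'.comp (RingEquiv.subringCongr RR_eis : Pool.Agent.Y688.RR →+* eis) with hι
    obtain ⟨d, hd, hB⟩ := base_om hb hr hU hG ha ι
    obtain ⟨f, hf⟩ := exists_VV ι hd (unr2_down (F := k) (K := K) hU)
    exact rankZero_of_ARZ (arz_big ι h3 hf (ne_of_base hB hf)) hfin

end

end Pool.Agent.K7.H70.SM
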