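import Pool.Agent.K7.H56.P.F

/-!
# Towers of Galois extensions of 2-power degree over an arbitrary field with odd discriminant
-/

set_option autoImplicit false

namespace Pool.Agent.K7.H70.SM

open Pool.Agent.Y696
open WeierstrassCurve IsDedekindDomain NumberField WithZero
open scoped Classical
open Pool.Agent.TH841.SH.D
open Pool.Agent.TH841.SH (IsR IsX gf not_isX isX_some isX_zero)
open Pool.Agent.Y678.CM (NsRed)
open Pool.Agent.K7.H56.P (Gd)

/-- the properties of the fields of the tower -/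
structure Gz (K : Type) [Field K] [NumberField K] : Prop where
  om : ∃ ω : K, ω ^ 2 + ω + 1 = 0
  two : ∀ v : HeightOneSpectrum (𝓞 K), ((2 : ℕ) : 𝓞 K) ∈ v.asIdeal →
    v.valuation K 2 = exp (-1 : ℤ)
  sq : ∀ δ : Cb K, PA δ → IsSquare δ

/-- there is a prime above two -/
lemma exists_two (K : Type) [Field K] [NumberField K] :
    ∃ v : HeightOneSpectrum (𝓞 K), ((2 : ℕ) : 𝓞 K) ∈ v.asIdeal := by
  have hp : (Ideal.span {(2 : ℤ)}).IsPrime :=
    (Ideal.span_singleton_prime (by norm_num)).2 Int.prime_two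
  have h0 : (Ideal.span {(2 : ℤ)}) ≠ ⊥ := by
    rw [Ne, Ideal.span_singleton_eq_bot]
    norm_num
  have hm : (Ideal.span {(2 : ℤ)}).IsMaximal := hp.isMaximal h0
  obtain ⟨P, hP, hlo⟩ := Ideal.exists_maximal_ideal_liesOver_of_isIntegral
    (Ideal.span {(2 : ℤ)}) (S := 𝓞 K)
  refine ⟨⟨P, hP.isPrime, Ideal.ne_bot_of_liesOver_of_ne_bot h0 P⟩, ?_⟩
  have h1 : (2 : ℤ) ∈ P.under ℤ := by
    rw [← hlo.over]
    exact Ideal.mem_span_singleton_self _
  rw [Ideal.under_def, Ideal.mem_comap] at h1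
  simpa using h1

lemma three_of_two {K : Type} [Field K] [NumberField K] {v : HeightOneSpectrum (𝓞 K)}
    (h : ((2 : ℕ) : 𝓞 K) ∈ v.asIdeal) : (3 : 𝓞 K) ∉ v.asIdeal := by
  intro h3
  apply v.isPrime.ne_top
  rw [Ideal.eq_top_iff_one]
  have e : (1 : 𝓞 K) = 3 - ((2 : ℕ) : 𝓞 K) := by push_cast; ring
  rw [e]
  exact Ideal.sub_mem _ h3 h

lemma three_of_six {K : Type} [Field K] [NumberField K] {v : HeightOneSpectrum (𝓞 K)}
    (h : ((6 : ℕ) : 𝓞 K) ∉ v.asIdeal) : (3 : 𝓞 K) ∉ v.asIdeal := by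
  intro h3
  apply h
  have e : ((6 : ℕ) : 𝓞 K) = 2 * 3 := by push_cast; ring
  rw [e]
  exact Ideal.mul_mem_left _ _ h3

lemma no_cube_of_two {K : Type} [Field K] [NumberField K]
    (h : ∀ v : HeightOneSpectrum (𝓞 K), ((2 : ℕ) : 𝓞 K) ∈ v.asIdeal →
      v.valuation K 2 = exp (-1 : ℤ)) (x : K) : x ^ 3 ≠ 2 := by
  intro hx
  obtain ⟨v, hv⟩ := exists_two K
  have h1 := h v hv
  rw [← hx, map_pow] at h1
  have h2 : v.valuation K x ≠ 0 := by
    intro h0
    rw [h0, zero_pow three_ne_zero] at h1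
    exact exp_ne_zero h1.symm
  obtain ⟨k, hk⟩ := exp_rep h2
  rw [hk, ← exp_nsmul] at h1
  have h3 := exp_injective h1
  rw [nsmul_eq_mul] at h3
  push_cast at h3
  omega

section step
variable {F K : Type} [Field F] [NumberField F] [Field K] [NumberField K] [Algebra F K]

lemma Gz.two_up (hF : Gz F) (hun : Gd F K) {v : HeightOneSpectrum (𝓞 K)}
    (hv : ((2 : ℕ) : 𝓞 K) ∈ v.asIdeal) : v.valuation K 2 = exp (-1 : ℤ) := by
  let v₀ : HeightOneSpectrum (𝓞 F) := ⟨v.asIdeal.under (𝓞 F), inferInstance, by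
    intro h
    exact v.ne_bot (Ideal.eq_bot_of_comap_eq_bot h)⟩
  have hlo : v.asIdeal.LiesOver v₀.asIdeal := ⟨rfl⟩
  have h2 : ((2 : ℕ) : 𝓞 F) ∈ v₀.asIdeal := by
    change _ ∈ v.asIdeal.comap _
    rw [Ideal.mem_comap, map_natCast]
    exact hv
  have he := hun v₀ v hlo (three_of_two h2) ⟨0, by
    have : (0 : 𝓞 F) ^ 3 - 2 = -((2 : ℕ) : 𝓞 F) := by push_cast; ring
    rw [this]
    exact neg_mem h2⟩
  have h3 := val_of_unr hlo he 2
  have h4 := hF.two v₀ h2
  rw [map_ofNat] at h3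
  rw [h3, ← h4]

variable [IsGalois F K]

theorem Gz.desc (hF : Gz F) {n : ℕ} (hn : Module.finrank F K = 2 ^ n) (hun : Gd F K) {δ : Cb K}
    (hsq : ¬ IsSquare δ) (hP : PA δ) : ∃ δ₀ : Cb F, ¬ IsSquare δ₀ ∧ PA δ₀ := by
  have h3 : ∀ x : K, x ^ 3 ≠ 2 := no_cube_of_two fun v hv => hF.two_up hun hv
  obtain ⟨δ₀, D, t, hD, hD0, ht0, hmap, hns, r, hr⟩ := step (L := F) (M := K) hn two_ne_zero
    h3 PA PA.one (fun x y hx hy => hx.mul hy)
    (fun g x hx => hx.aut (g : K ≃+* K)) (fun x hx => hx.2.1) (Cb.ne_of_N hP.1) hsq hP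
  have htN : t.N ≠ 0 := Cb.N_ne h3 ht0
  have hm : PA (Cb.map (algebraMap F K) δ₀) := by
    rw [hmap]
    exact hD.mul (PA.sq htN)
  have h0N : δ₀.N ≠ 0 := by
    intro h
    apply hm.1
    rw [Cb.N_map, h, map_zero]
  refine ⟨δ₀, ?_, h0N, ⟨r, hr⟩, fun v₀ hv₀ => ?_, fun v₀ hv₀ => ?_⟩
  · rintro ⟨s, hs⟩
    exact hns ⟨Cb.map (algebraMap F K) s, by rw [hs, map_mul]⟩
  · by_cases hx : ∃ x : 𝓞 F, x ^ 3 - 2 ∈ v₀.asIdeal
    · obtain ⟨v, hlo⟩ := exists_above (K := K) v₀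
      have he := hun v₀ v hlo (three_of_six hv₀) hx
      refine EvV.desc (algebraMap F K) (val_of_unr hlo he) (hm.2.2.1 v ?_)
      rw [nat_mem_iff, ← map_natCast (algebraMap F K), val_of_unr hlo he, ← nat_mem_iff]
      exact hv₀
    · refine ⟨1, fun a ha => ?_⟩
      exfalso
      apply hx
      have ha1 : v₀.valuation F a ≤ 1 :=
        le_of_near _ (ha.trans (by rw [← exp_zero, exp_le_exp]; norm_num))
      obtain ⟨x, hx⟩ := HeightOneSpectrum.exists_valuation_sub_lt_of_integer (K := F) v₀ ha1 1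
      refine ⟨x, ?_⟩
      rw [← HeightOneSpectrum.valuation_lt_one_iff_mem (K := F)]
      change v₀.valuation F (algebraMap (𝓞 F) F (x ^ 3 - 2)) < 1
      have hx' : v₀.valuation F (algebraMap (𝓞 F) F x - a) < 1 := hx
      have ha' : v₀.valuation F (a ^ 3 - 2) < 1 :=
        lt_of_le_of_lt ha (by rw [← exp_zero, exp_lt_exp]; norm_num)
      have e : algebraMap (𝓞 F) F (x ^ 3 - 2) = (algebraMap (𝓞 F) F x - a) *
          (algebraMap (𝓞 F) F x ^ 2 + algebraMap (𝓞 F) F x * a + a ^ 2) + (a ^ 3 - 2) := by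
        rw [map_sub, map_pow, map_ofNat]
        ring
      rw [e]
      refine Valuation.map_add_lt _ ?_ ha'
      rw [map_mul]
      have hxx := v₀.valuation_le_one (K := F) x
      refine mul_lt_one_of_nonneg_of_lt_one_left zero_le hx' ?_
      refine Valuation.map_add_le _ (Valuation.map_add_le _ ?_ ?_) ?_
      · rw [map_pow]; exact pow_le_one' hxx 2
      · rw [map_mul]; exact mul_le_one' hxx ha1
      · rw [map_pow]; exact pow_le_one' ha1 2
  · obtain ⟨v, hlo⟩ := exists_above (K := K) v₀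
    have hx : ∃ x : 𝓞 F, x ^ 3 - 2 ∈ v₀.asIdeal := ⟨0, by
      have : (0 : 𝓞 F) ^ 3 - 2 = -((2 : ℕ) : 𝓞 F) := by push_cast; ring
      rw [this]
      exact neg_mem hv₀⟩
    have he := hun v₀ v hlo (three_of_two hv₀) hx
    have hv2 : ((2 : ℕ) : 𝓞 K) ∈ v.asIdeal := by
      rw [nat_mem_iff, ← map_natCast (algebraMap F K), val_of_unr hlo he, ← nat_mem_iff]
      exact hv₀
    exact LvV.desc (hF.two_up hun hv2) (algebraMap F K) (val_of_unr hlo he) (Cb.ne_of_N h0N)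
      (hm.2.2.2 v hv2)


/-- **one step of the tower** -/
theorem Gz.step (hF : Gz F) {n : ℕ} (hn : Module.finrank F K = 2 ^ n) (hun : Gd F K) : Gz K := by
  refine ⟨?_, fun v hv => hF.two_up hun hv, fun δ hδ => ?_⟩
  · obtain ⟨ω, hω⟩ := hF.om
    exact ⟨algebraMap F K ω, by
      rw [← map_pow, ← map_add, ← map_one (algebraMap F K), ← map_add, hω, map_zero]⟩
  · by_contra hsq
    obtain ⟨δ₀, hs, hP⟩ := hF.desc hn hun hsq hδ
    exact hs (hF.sq δ₀ hP)

end step

section final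
variable {K : Type} [Field K] [NumberField K]

lemma Gz.exists_RD (hK : Gz K) : Nonempty (RD K) := by
  obtain ⟨ω, hω⟩ := hK.om
  obtain ⟨ρ, hρ⟩ := IsAlgClosed.exists_pow_nat_eq (2 : AlgebraicClosure K) (n := 3) (by norm_num)
  exact ⟨{ ω := ω
           hω := hω
           h3 := no_cube_of_two hK.two
           ρ := ρ
           hρ := hρ }⟩

/-- **the Selmer group vanishes** -/
theorem Gz.sel16 (hK : Gz K)
    {f : Coch (W16 K)} (hf : IsCoc (W16 K) f) (h2 : ∀ σ, f σ + f σ = 0)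
    (hloc : ∀ v : HeightOneSpectrum (𝓞 K), LocTriv (W16 K) (v.adicCompletion K) f) :
    ∃ T : Pt (W16 K) (AlgebraicClosure K), T + T = 0 ∧
      ∀ σ : Gal K, f σ = act (W16 K) σ.toAlgHom T - T := by
  obtain ⟨D⟩ := hK.exists_RD
  obtain ⟨δ, w, hw0, hw, hwX, hwN, hr, hN, hsq⟩ := D.glo hf h2
  apply hsq
  refine hK.sq δ ⟨hN, hr, fun v hv => ?_, fun v hv => ?_⟩
  · exact D.ev_of_loc h2 hw hwX hwN hv (hloc v) hN
  · exact D.lv_of_loc h2 hw hwX hwN (hK.two v hv) (hloc v) hN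

/-- locally trivial cocycles killed by two -/
theorem Gz.selE (hK : Gz K)
    {f : Coch (E0 K)} (hf : IsCoc (E0 K) f) (h2 : ∀ σ, f σ + f σ = 0)
    (hloc : ∀ v : HeightOneSpectrum (𝓞 K), LocTriv (E0 K) (v.adicCompletion K) f) :
    ∃ T : Pt (E0 K) (AlgebraicClosure K), T + T = 0 ∧
      ∀ σ : Gal K, f σ = act (E0 K) σ.toAlgHom T - T := by
  obtain ⟨T, hT, h⟩ := hK.sel16 (coc_Phi hf)
    (fun σ => by rw [← map_add, h2, map_zero])
    (fun v => by
      have : CharZero (v.adicCompletion K) :=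
        charZero_of_injective_algebraMap (algebraMap K (v.adicCompletion K)).injective
      exact loc_Phi (hloc v))
  refine ⟨(Phi K _).symm T, ?_, fun σ => ?_⟩
  · rw [← map_add, hT, map_zero]
  · apply (Phi K (AlgebraicClosure K)).injective
    have h1 : Phi K _ (f σ) = act (W16 K) σ.toAlgHom T - T := h σ
    rw [h1, map_sub, Phi_act, AddEquiv.apply_symm_apply]

/-- **no element of order two in the Tate-Shafarevich group** -/
theorem Gz.sha_two (hK : Gz K)
    (x : Pool.Agent.TH841.NF.D.Sha (E0 K)) (hx : x + x = 0) : x = 0 := by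
  obtain ⟨D⟩ := hK.exists_RD
  obtain ⟨⟨f, hf⟩, rfl⟩ := QuotientAddGroup.mk_surjective x
  have h1 : (⟨f, hf⟩ + ⟨f, hf⟩ : Pool.Agent.TH841.NF.D.shaCoc (E0 K)) ∈
      (cob (E0 K)).addSubgroupOf (Pool.Agent.TH841.NF.D.shaCoc (E0 K)) := by
    rw [← QuotientAddGroup.eq_zero_iff]
    exact hx
  obtain ⟨Q, hQ⟩ : IsCob (E0 K) (f + f) := h1
  obtain ⟨Q', hQ'⟩ := halve D Q
  have hf' : Pool.Agent.TH841.NF.D.IsShaCoc (E0 K) f := hf
  let b : Coch (E0 K) := fun σ : Gal K => act (E0 K) σ.toAlgHom Q' - Q'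
  let g : Coch (E0 K) := f - b
  have hgσ : ∀ σ, g σ = f σ - (act (E0 K) σ.toAlgHom Q' - Q') := fun σ => rfl
  have hgc : IsCoc (E0 K) g := by
    have h7 := coc_add hf'.1 (coc_neg (coc_of_pt (E0 K) Q'))
    have h8 : g = f + -b := by
      funext σ
      exact sub_eq_add_neg _ _
    rw [h8]
    exact h7
  have hg2 : ∀ σ, g σ + g σ = 0 := by
    intro σ
    have h3 : f σ + f σ = act (E0 K) σ.toAlgHom Q - Q := hQ σ
    rw [hgσ]
    have e : f σ - (act (E0 K) σ.toAlgHom Q' - Q') + (f σ - (act (E0 K) σ.toAlgHom Q' - Q')) =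
        (f σ + f σ) - ((act (E0 K) σ.toAlgHom Q' + act (E0 K) σ.toAlgHom Q') - (Q' + Q')) := by
      abel
    rw [e, h3, ← map_add, ← hQ', sub_self]
  have hgl : ∀ v : HeightOneSpectrum (𝓞 K), LocTriv (E0 K) (v.adicCompletion K) g := by
    intro v ι
    obtain ⟨P, hP⟩ := hf'.2.1 v ι
    refine ⟨P - act (E0 K) ι Q', fun τ σ h => ?_⟩
    have h3 := hP τ σ h
    have h4 : act (E0 K) ι (act (E0 K) σ.toAlgHom Q') =
        act (E0 K) (τ.toAlgHom.restrictScalars K) (act (E0 K) ι Q') := by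
      rw [act_act, act_act]
      congr 2
      ext z
      exact (h z).symm
    rw [hgσ, map_sub, map_sub, map_sub, h3, h4]
    abel
  obtain ⟨T, hT, h⟩ := hK.selE hgc hg2 hgl
  refine (QuotientAddGroup.eq_zero_iff (⟨f, hf⟩ : Pool.Agent.TH841.NF.D.shaCoc (E0 K))).2 ?_
  change IsCob (E0 K) f
  refine ⟨T + Q', fun σ => ?_⟩
  have h5 := h σ
  rw [hgσ] at h5
  have h6 : f σ = (act (E0 K) σ.toAlgHom T - T) + (act (E0 K) σ.toAlgHom Q' - Q') := by
    rw [← h5]; abel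
  rw [h6, map_add]
  abel

/-- **the rational points are divisible by two** -/
theorem Gz.div_two (hK : Gz K) (P : Pt (E0 K) K) :
    ∃ Q : Pt (E0 K) K, P = Q + Q := by
  obtain ⟨D⟩ := hK.exists_RD
  set j : K →ₐ[K] AlgebraicClosure K := Algebra.ofId K _ with hj
  obtain ⟨Q, hQ⟩ := halve D (act (E0 K) j P)
  have hP : ∀ σ : Gal K, act (E0 K) σ.toAlgHom (act (E0 K) j P) = act (E0 K) j P := by
    intro σ
    rw [act_act]
    congr 1
    congr 1
    exact AlgHom.ext fun _ => σ.commutes _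
  have hloc : ∀ v : HeightOneSpectrum (𝓞 K), LocTriv (E0 K) (v.adicCompletion K)
      (fun σ : Gal K => act (E0 K) σ.toAlgHom Q - Q) := by
    intro v ι
    refine ⟨act (E0 K) ι Q, fun τ σ h => ?_⟩
    have h4 : act (E0 K) ι (act (E0 K) σ.toAlgHom Q) =
        act (E0 K) (τ.toAlgHom.restrictScalars K) (act (E0 K) ι Q) := by
      rw [act_act, act_act]
      congr 2
      ext z
      exact (h z).symm
    rw [map_sub, h4]
  obtain ⟨T, hT, h⟩ := hK.selE (coc_of_pt (E0 K) Q) (fun σ => by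
      have e : act (E0 K) σ.toAlgHom Q - Q + (act (E0 K) σ.toAlgHom Q - Q) =
        (act (E0 K) σ.toAlgHom Q + act (E0 K) σ.toAlgHom Q) - (Q + Q) := by abel
      rw [e, ← map_add, ← hQ, hP, sub_self]) hloc
  have hfix : ∀ σ : Gal K, act (E0 K) σ.toAlgHom (Q - T) = Q - T := by
    intro σ
    have h5 : act (E0 K) σ.toAlgHom Q - Q = act (E0 K) σ.toAlgHom T - T := h σ
    rw [map_sub]
    have : act (E0 K) σ.toAlgHom Q = act (E0 K) σ.toAlgHom T - T + Q := by rw [← h5]; abel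
    rw [this]
    abel
  obtain ⟨R, hR⟩ : ∃ R : Pt (E0 K) K, act (E0 K) j R = Q - T := by
    rcases pt_cases (Q - T) with h0 | ⟨x, y, hn', h0⟩
    · exact ⟨0, by rw [h0, map_zero]⟩
    · have hxy : ∀ σ : Gal K, σ x = x ∧ σ y = y := by
        intro σ
        have h5 := hfix σ
        rw [h0] at h5
        exact mk_ext.1 h5
      obtain ⟨x₀, hx⟩ := fixm (k := K) x fun σ => (hxy σ).1
      obtain ⟨y₀, hy⟩ := fixm (k := K) y fun σ => (hxy σ).2
      subst hx hy
      have hns : ((E0 K).baseChange K).toAffine.Nonsingular x₀ y₀ :=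
        (Affine.baseChange_nonsingular (E0 K) j.injective ..).mp hn'
      exact ⟨mkp hns, by rw [h0]; rfl⟩
  refine ⟨R, ?_⟩
  apply act_inj (E0 K) j
  rw [map_add, hR, hQ]
  have e : Q - T + (Q - T) = (Q + Q) - (T + T) := by abel
  rw [e, hT, sub_zero]

theorem Gz.pts_odd (hK : Gz K) :
    Finite (E0 K).toAffine.Point ∧ Odd (Nat.card (E0 K).toAffine.Point) := by
  refine @Pool.Agent.Y784.E3.fin_odd K _ _ (Classical.decEq K) fun P => ?_
  obtain ⟨Q, hQ⟩ := hK.div_two P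
  refine ⟨Q, ?_⟩
  have h2 : (2 : ℕ) • Q = Q + Q := two_nsmul Q
  exact hQ.trans h2.symm


lemma Gz.disc_odd (hK : Gz K) : ¬ (2 : ℤ) ∣ discr K := by
  rw [NumberField.not_dvd_discr_iff_forall_mem K (𝓞 K) Int.prime_two]
  intro P hP h2
  have h2' : ((2 : ℕ) : 𝓞 K) ∈ P := by exact_mod_cast h2
  have hP0 : P ≠ ⊥ := by
    rintro rfl
    rw [Ideal.mem_bot] at h2'
    exact absurd h2' (by norm_num)
  let v : HeightOneSpectrum (𝓞 K) := ⟨P, hP, hP0⟩
  have h3 : v.valuation K 2 = WithZero.exp (-1 : ℤ) := hK.two v h2'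
  let Q : HeightOneSpectrum ℤ := ⟨Ideal.span {((2 : ℕ) : ℤ)},
    (Ideal.span_singleton_prime (by norm_num)).2 (Nat.prime_iff_prime_int.1 Nat.prime_two), by
      rw [Ne, Ideal.span_singleton_eq_bot]
      norm_num⟩
  have hmax : Q.asIdeal.IsMaximal := Q.isPrime.isMaximal Q.ne_bot
  have hlo : v.asIdeal.LiesOver Q.asIdeal := by
    constructor
    refine (hmax.eq_of_le ?_ ?_)
    · exact Ideal.IsPrime.ne_top inferInstance
    · rw [Ideal.span_singleton_le_iff_mem, Ideal.under_def, Ideal.mem_comap]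
      simpa using h2'
  have h1 := HeightOneSpectrum.valuation_liesOver (K := ℚ) K Q v (2 : ℚ)
  have h4 : Q.valuation ℚ (2 : ℚ) = WithZero.exp (-1 : ℤ) := by
    have := HeightOneSpectrum.intValuation_singleton Q (r := ((2 : ℕ) : ℤ))
      (by norm_num) rfl
    rw [← this, ← HeightOneSpectrum.valuation_of_algebraMap (K := ℚ)]
    simp
  rw [h4, map_ofNat, h3, ← WithZero.exp_nsmul] at h1
  have h5 := WithZero.exp_injective h1
  have h6 : Q.asIdeal.ramificationIdx' v.asIdeal = 1 := by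
    rw [nsmul_eq_mul] at h5
    have : ((Q.asIdeal.ramificationIdx' v.asIdeal : ℕ) : ℤ) = 1 := by linarith
    exact_mod_cast this
  rw [Ideal.ramificationIdx'_eq_ramificationIdx _ _ Q.ne_bot] at h6
  have : Finite (ℤ ⧸ P.under ℤ) := by
    rw [← hlo.over]
    exact Ideal.finiteQuotientOfFreeOfNeBot _ Q.ne_bot
  have hmax' : (P.under ℤ).IsMaximal := by
    have := hlo.over
    change _ = P.under ℤ at this
    rw [← this]
    exact hmax
  have : Finite (P.under ℤ).ResidueField := by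
    have := Ideal.bijective_algebraMap_quotient_residueField (P.under ℤ)
    exact Finite.of_surjective _ this.2
  exact (Ideal.ramificationIdx_eq_one_iff (q := P) (R := ℤ)).1 h6

end final

end Pool.Agent.K7.H70.SM
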