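import Pool.Agent.K7.H70.SM.A
import Pool.Agent.K7.H70.AS.V

/-!
# Local factors above three; fields without cube roots of unity
-/

set_option autoImplicit false

open Complex NumberField IsDedekindDomain WithZero WeierstrassCurve
open scoped PeriodPair nonZeroDivisors

namespace Pool.Agent.K7.H70.SM

open Pool.Agent.K7.H56
open Pool.Agent.R430
open Pool.Agent.Y696 Pool.Agent.W192.HK Pool.Agent.TH936.CM H667R3
open Pool.Agent.TH936.PU
open Pool.Agent.W189.NF (aV eV redMap Ov card_res finite_res)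
open Pool.Agent.K7.H70.AS
open scoped Classical

/-- additive reduction above three -/
def Add3 (k : Type) [Field k] [NumberField k] : Prop :=
  ∀ v : HeightOneSpectrum (𝓞 k), (3 : 𝓞 k) ∈ v.asIdeal → aV (E0 k) v = 0 ∧ eV (E0 k) v = 0

/-- four does not divide the ramification indices above three -/
def Ram4 (k : Type) [Field k] [NumberField k] : Prop :=
  ∀ v : HeightOneSpectrum (𝓞 k), (3 : 𝓞 k) ∈ v.asIdeal → ∀ g : ℤᵐ⁰, v.valuation k 3 ≠ g ^ 4

section
variable {k : Type} [Field k] [NumberField k]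

lemma aV_bad4 {v : HeightOneSpectrum (𝓞 k)} (h : ∀ g : ℤᵐ⁰, v.valuation k 3 ≠ g ^ 4) :
    aV (E0 k) v = 0 ∧ eV (E0 k) v = 0 := by
  have hbc : (E0 k).baseChange (v.adicCompletion k) = E0 (v.adicCompletion k) := E0_map _
  unfold aV eV
  rw [hbc]
  refine aLoc_bad (L := v.adicCompletion k) (Ov v) fun u hu => ?_
  have h27 : Valued.v (27 : v.adicCompletion k) = (v.valuation k 3) ^ 3 := by
    have e : (27 : v.adicCompletion k) = (algebraMap k (v.adicCompletion k) 3) ^ 3 := by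
      rw [map_ofNat]; norm_num
    rw [e, map_pow, Pool.Agent.H723R3.valued_algebraMap]
  have hu' : Valued.v u ^ 12 = (v.valuation k 3) ^ 3 := by
    rw [← Pool.Agent.Y696.val_eq v u, ← h27, ← Pool.Agent.Y696.val_eq v]
    exact hu
  have h3 : v.valuation k 3 ≠ 0 := (Valuation.ne_zero_iff _).2 (by norm_num)
  have h0 : Valued.v u ≠ 0 := by
    intro h0
    rw [h0, zero_pow (by norm_num)] at hu'
    exact pow_ne_zero 3 h3 hu'.symm
  obtain ⟨n, hn⟩ := exp_rep h0
  obtain ⟨m, hm⟩ := exp_rep h3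
  rw [hm, hn, ← WithZero.exp_nsmul, ← WithZero.exp_nsmul, WithZero.exp_inj] at hu'
  simp only [nsmul_eq_mul] at hu'
  push_cast at hu'
  apply h (WithZero.exp n)
  rw [hm, ← WithZero.exp_nsmul]
  congr 1
  rw [nsmul_eq_mul]
  push_cast
  omega

lemma add3_of (h : Ram4 k) : Add3 k := fun v hv => aV_bad4 (h v hv)

/-- the ramification indices in an overfield -/
lemma ram4_small {K : Type} [Field K] [NumberField K] [Algebra k K] {e : ℕ} (he : ¬ 4 ∣ e)
    (h : ∀ w : HeightOneSpectrum (𝓞 K), (3 : 𝓞 K) ∈ w.asIdeal → w.valuation K 3 = WithZero.exp (-(e : ℤ))) :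
    Ram4 k := by
  intro v hv g hg
  obtain ⟨w, hlo⟩ := exists_above (F := k) (K := K) v
  have hw := (three_below hlo).1 hv
  have h3 := h w hw
  have h4 := HeightOneSpectrum.valuation_liesOver K v w (3 : k)
  rw [map_ofNat (algebraMap k K), h3, hg] at h4
  set r := v.asIdeal.ramificationIdx' w.asIdeal with hr
  have h5 : g ≠ 0 := by
    rintro rfl
    rw [zero_pow (by norm_num)] at hg
    exact (Valuation.ne_zero_iff _).2 (by norm_num : (3 : k) ≠ 0) hg
  obtain ⟨n, hn⟩ := exp_rep h5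
  rw [hn, ← WithZero.exp_nsmul, ← WithZero.exp_nsmul, WithZero.exp_inj] at h4
  simp only [nsmul_eq_mul] at h4
  push_cast at h4
  apply he
  have : (4 : ℤ) ∣ (e : ℤ) := ⟨-(r * n), by linarith⟩
  exact_mod_cast this

/-- the bound of Hasse -/
lemma hasse3 (ι : eis →+* 𝓞 k) (h3 : Add3 k) (v : HeightOneSpectrum (𝓞 k)) :
    HBd (aV (E0 k) v) (eV (E0 k) v) (Pool.Agent.H921R2.TatePole.nm v) := by
  by_cases h : (3 : 𝓞 k) ∈ v.asIdeal
  · exact Or.inl (h3 v h)
  · obtain ⟨f, -, hf⟩ := deg_base ι v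
    obtain ⟨h1, h2, h4⟩ := aV_val (ι := ι) v (by rw [map_ofNat]; exact h) hf
    refine Or.inr ⟨psi (bel ι v).asIdeal ^ f, ?_, ?_, ?_⟩
    · rw [h1, map_pow]
    · rw [h2, map_pow, ← mul_pow, h4, hf]
      push_cast
      rfl
    · rw [map_pow, ← mul_pow, h4]
      change _ = ((nK v : ℕ) : ℂ)
      rw [hf]
      push_cast
      rfl

/-- the L-function over a field with the cube roots of unity -/
theorem LN_eq3 (ι' : eis →+* 𝓞 k) (h3 : Add3 k) {Λ s : ℂ} (hs : 3 / 2 < s.re)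
    (hΛ : HasProd (fun P : HeightOneSpectrum (𝓞 k) => ZI (X0 1) P s) Λ) : (E0 k).LSeries s = Λ := by
  have h1 := LSeries_hasProd' (E0 k) (hasse3 ι' h3) hs
  have h2 : HasProd (fun v : HeightOneSpectrum (𝓞 k) => Pool.Agent.Y696.XX v s) ((E0 k).LSeries s) :=
    h1.2
  refine h2.unique (hΛ.congr_fun fun P => ?_)
  unfold ZI
  by_cases h3P : (3 : 𝓞 k) ∈ P.asIdeal
  · rw [if_pos h3P]
    obtain ⟨h9, h10⟩ := h3 P h3P
    unfold Pool.Agent.Y696.XX
    rw [h9, h10]
    simp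
  · rw [if_neg h3P, XX_YY ι' h3P, X0_pos]
    rw [prime_cop_iff, Nat.cast_one]
    exact fun hm => P.isPrime.ne_top ((Ideal.eq_top_iff_one _).2 hm)

end

/-- the analytic half of the conjecture in rank zero -/
structure ARZ (k : Type) [Field k] [NumberField k] (Lf : ℂ → ℂ) : Prop where
  mero : MeromorphicOn Lf Set.univ
  sum : ∀ s : ℂ, 3 / 2 < s.re → LSeriesSummable ((fun n : ℤ => (n : ℂ)) ∘ (E27 k).LFunction) s ∧
    Lf s = (E27 k).LSeries s
  an : AnalyticAt ℂ Lf 1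
  ne : Lf 1 ≠ 0

theorem rankZero_of_ARZ {k : Type} [Field k] [NumberField k] {Lf : ℂ → ℂ} (h : ARZ k Lf)
    (hfin : Finite (E27 k).toAffine.Point) : RankZero (E27 k) := by
  obtain ⟨h1, h2, h3, h4⟩ := h
  refine ⟨hfin, {z | AnalyticAt ℂ Lf z}, Lf, isOpen_analyticAt ℂ Lf, ?_, ?_, h3,
    fun z hz => hz, fun s hs => (h2 s hs).2, ?_, ?_⟩
  · have hm : Meromorphic Lf := fun z => h1 z (Set.mem_univ z)
    have h5 : IsConnected ({z : ℂ | AnalyticAt ℂ Lf z}ᶜ)ᶜ :=
      Set.Countable.isConnected_compl_of_one_lt_rank (by simp) hm.countable_compl_analyticAt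
    rwa [compl_compl] at h5
  · intro s hs
    have hs' : (3 / 2 : ℝ) < s.re := hs
    have hab : LSeries.abscissaOfAbsConv ((fun n : ℤ => (n : ℂ)) ∘ (E27 k).LFunction) ≤
        ((3 / 2 : ℝ) : EReal) :=
      LSeries.abscissaOfAbsConv_le_of_forall_lt_LSeriesSummable fun y hy => (h2 y (by
        rw [Complex.ofReal_re]; exact hy)).1
    have h5 := LSeries_analyticOnNhd ((fun n : ℤ => (n : ℂ)) ∘ (E27 k).LFunction) s (by
      refine lt_of_le_of_lt hab ?_
      exact_mod_cast hs')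
    refine h5.congr ?_
    have : {z : ℂ | (3 / 2 : ℝ) < z.re} ∈ nhds s :=
      (isOpen_lt continuous_const Complex.continuous_re).mem_nhds hs'
    filter_upwards [this] with z hz
    exact ((h2 z hz).2).symm
  · intro r hr
    rw [Pool.Agent.Y688.finrank_fin] at hr
    exact absurd hr (Nat.not_lt_zero r)
  · rw [Pool.Agent.Y688.finrank_fin, iteratedDeriv_zero]
    exact h4

section
variable {K : Type} [Field K] [NumberField K]

/-- **fields with the cube roots of unity** -/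
theorem arz_big (ι : Pool.Agent.Y688.RR →+* 𝓞 K) (h3 : Add3 K) {f : ℂ → ℂ} (hf : VV ι (X0 1) f)
    (hf1 : f 1 ≠ 0) : ARZ K (Lam f) := by
  refine ⟨Lam_mero hf, fun s hs => ⟨(LSeries_hasProd' (E0 K) (hasse3 (iE ι) h3) hs).1,
    (LN_eq3 (iE ι) h3 hs (Lam_prod hf hs)).symm⟩, Lam_an hf, ?_⟩
  rw [Lam_one]
  exact mul_ne_zero hf1 ((map_ne_zero _).2 hf1)

variable {K₀ : Type} [Field K₀] [NumberField K₀] [Algebra K₀ K]
  {ι : eis →+* 𝓞 K} {τ : K ≃ₐ[K₀] K}

/-- the data of the quadratic extension -/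
structure Qe (K₀ : Type) [Field K₀] [NumberField K₀] [Algebra K₀ K] (ι : eis →+* 𝓞 K)
    (τ : K ≃ₐ[K₀] K) : Prop where
  two : Module.finrank K₀ K = 2
  cj : ∀ a : eis, τ • ι a = ι (Pool.Agent.Y696.cj a)
  three : Add3 K₀

lemma Qe.bel_cj (Q : Qe K₀ ι τ) {w w' : HeightOneSpectrum (𝓞 K)}
    (h : ∀ x : 𝓞 K, x ∈ w'.asIdeal ↔ τ • x ∈ w.asIdeal) (a : eis) :
    a ∈ (bel ι w').asIdeal ↔ Pool.Agent.Y696.cj a ∈ (bel ι w).asIdeal := by
  rw [mem_bel, mem_bel, h, Q.cj]

/-- the fibre over a prime of the small field -/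
theorem Qe.fib (Q : Qe K₀ ι τ) (v : HeightOneSpectrum (𝓞 K₀)) (s : ℂ) :
    HasProd (fun w : {w : HeightOneSpectrum (𝓞 K) // und0 K₀ w = v} => yw ι w.1 s)
      (Pool.Agent.Y696.XX v s) := by
  classical
  by_cases h3 : (3 : 𝓞 K₀) ∈ v.asIdeal
  · obtain ⟨h1, h2⟩ := Q.three v h3
    have hX : Pool.Agent.Y696.XX v s = 1 := by
      unfold Pool.Agent.Y696.XX
      rw [h1, h2]
      simp
    rw [hX]
    have h4 : ∀ w : {w : HeightOneSpectrum (𝓞 K) // und0 K₀ w = v}, yw ι w.1 s = 1 := by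
      rintro ⟨w, hw⟩
      refine yw_threeN ι ?_ s
      have hlo := und0_iff.1 hw
      have h5 : algebraMap (𝓞 K₀) (𝓞 K) 3 ∈ w.asIdeal := by
        have := hlo.over
        rw [this] at h3
        exact h3
      rwa [map_ofNat] at h5
    rw [show (fun w : {w : HeightOneSpectrum (𝓞 K) // und0 K₀ w = v} => yw ι w.1 s) =
      fun _ => 1 from funext h4]
    exact hasProd_one
  · have hζ : (ι omr) ^ 2 + ι omr + 1 = 0 := by
      rw [← map_pow, ← map_add, ← map_one ι, ← map_add, omr_sq, map_zero]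
    have hτ : τ ((ι omr : 𝓞 K) : K) = ((ι omr : 𝓞 K) : K) ^ 2 := by
      have h5 := Q.cj omr
      rw [cj_omr, map_pow] at h5
      have h6 := congrArg (fun z : 𝓞 K => (z : K)) h5
      exact h6
    have hw3 : ∀ w : HeightOneSpectrum (𝓞 K), w.asIdeal.LiesOver v.asIdeal →
        (3 : 𝓞 K) ∉ w.asIdeal := by
      intro w hlo h5
      apply h3
      rw [hlo.over, Ideal.under_def, Ideal.mem_comap, map_ofNat]
      exact h5
    have hcv : Nat.card (𝓞 K₀ ⧸ v.asIdeal) = nK v := Pool.Agent.Y696.card_nm v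
    rcases Pool.Agent.Y900.QC.jobC Q.two (ι omr) hζ τ hτ v h3 with
      ⟨-, w, w', hne, hww, hlo, hn, hn'⟩ | ⟨hq, w, hww, hlo, hn⟩
    · -- the split case
      have hp : ∀ u : HeightOneSpectrum (𝓞 K), und0 K₀ u = v ↔ u ∈ ({w, w'} : Finset _) := by
        intro u
        rw [und0_iff, hlo, Finset.mem_insert, Finset.mem_singleton]
      have h4 := hasProd_sub (f := fun u : HeightOneSpectrum (𝓞 K) => yw ι u s) _ hp
      rw [Finset.prod_pair hne] at h4
      have hwv : w.asIdeal.LiesOver v.asIdeal := (hlo w).2 (Or.inl rfl)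
      have hnw : nK v = nK w := by rw [← Pool.Agent.Y696.card_nm, ← Pool.Agent.Y696.card_nm, hn]
      have hnw' : nK w' = nK w := by
        rw [← Pool.Agent.Y696.card_nm, ← Pool.Agent.Y696.card_nm, hn, hn']
      have hw3' := hw3 w hwv
      obtain ⟨a1, a2⟩ := aV_eq h3 hw3' hnw
      obtain ⟨b1, b2, b3⟩ := pw_valN ι hw3'
      obtain ⟨c1, c2⟩ := psi_cj (Q.bel_cj hww) (P := bel ι w) (P' := bel ι w')
        (by rw [mem_bel, map_ofNat]; exact hw3')
      obtain ⟨f, -, hf⟩ := deg_base ι w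
      have hf' : nK w' = Nat.card (eis ⧸ (bel ι w').asIdeal) ^ f := by rw [hnw', c2, hf]
      have hpw : pw ι w' = (starRingEnd ℂ) (pw ι w) := by
        unfold Pool.Agent.Y696.pw
        rw [fd_of hf, fd_of hf', c1, map_pow]
      have hX : Pool.Agent.Y696.XX v s = yw ι w s * yw ι w' s := by
        unfold Pool.Agent.Y696.XX yw
        rw [a1, a2, b1, b2, hpw, hnw', hnw, ← mul_inv]
        congr 1
        linear_combination -((nK w : ℂ) ^ (-s)) ^ 2 * b3
      rw [hX]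
      exact h4
    · have hp : ∀ u : HeightOneSpectrum (𝓞 K), und0 K₀ u = v ↔ u ∈ ({w} : Finset _) := by
        intro u
        rw [und0_iff, hlo, Finset.mem_singleton]
      have h4 := hasProd_sub (f := fun u : HeightOneSpectrum (𝓞 K) => yw ι u s) _ hp
      rw [Finset.prod_singleton] at h4
      have hwv : w.asIdeal.LiesOver v.asIdeal := (hlo w).2 rfl
      have hw3' := hw3 w hwv
      rw [hcv] at hq
      obtain ⟨a1, a2⟩ := aV_inert h3 hq
      obtain ⟨t, t1, t2, t3⟩ := psi_self (P := bel ι w) (Q.bel_cj hww)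
        (by rw [mem_bel, map_ofNat]; exact hw3')
      obtain ⟨f, -, hf⟩ := deg_base ι w
      have hnw : nK w = nK v ^ 2 := by rw [← Pool.Agent.Y696.card_nm, hn, hcv]
      have h5 : ((nK v : ℕ) : ℤ) ^ 2 = (t ^ 2) ^ f := by
        rw [← t3]
        rw [hnw] at hf
        exact_mod_cast hf
      have h6 := pow_mod_aux t2 hq h5
      have hpw : pw ι w = -(nK v : ℂ) := by
        unfold Pool.Agent.Y696.pw
        rw [fd_of hf, t1]
        exact_mod_cast h6
      have hX : Pool.Agent.Y696.XX v s = yw ι w s := by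
        unfold Pool.Agent.Y696.XX yw
        rw [a1, a2, hpw, hnw]
        congr 1
        have e : (((nK v ^ 2 : ℕ) : ℕ) : ℂ) ^ (-s) = ((nK v : ℂ) ^ (-s)) ^ 2 := by
          push_cast
          rw [← Complex.natCast_cpow_natCast_mul, Complex.cpow_nat_mul]
        rw [e]
        push_cast
        ring
      rw [hX]
      exact h4

/-- the bound of Hasse -/
lemma Qe.hasse (Q : Qe K₀ ι τ) (v : HeightOneSpectrum (𝓞 K₀)) :
    HBd (aV (E0 K₀) v) (eV (E0 K₀) v) (Pool.Agent.H921R2.TatePole.nm v) := by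
  classical
  by_cases h3 : (3 : 𝓞 K₀) ∈ v.asIdeal
  · exact Or.inl (Q.three v h3)
  · have hζ : (ι omr) ^ 2 + ι omr + 1 = 0 := by
      rw [← map_pow, ← map_add, ← map_one ι, ← map_add, omr_sq, map_zero]
    have hτ : τ ((ι omr : 𝓞 K) : K) = ((ι omr : 𝓞 K) : K) ^ 2 := by
      have h5 := Q.cj omr
      rw [cj_omr, map_pow] at h5
      have h6 := congrArg (fun z : 𝓞 K => (z : K)) h5
      exact h6
    have hcv : Nat.card (𝓞 K₀ ⧸ v.asIdeal) = nK v := Pool.Agent.Y696.card_nm v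
    rcases Pool.Agent.Y900.QC.jobC Q.two (ι omr) hζ τ hτ v h3 with
      ⟨-, w, w', hne, hww, hlo, hn, hn'⟩ | ⟨hq, w, hww, hlo, hn⟩
    · have hwv : w.asIdeal.LiesOver v.asIdeal := (hlo w).2 (Or.inl rfl)
      have hnw : nK v = nK w := by rw [← Pool.Agent.Y696.card_nm, ← Pool.Agent.Y696.card_nm, hn]
      have hw3'' : (3 : 𝓞 K) ∉ w.asIdeal := by
        intro h5
        apply h3
        rw [hwv.over, Ideal.under_def, Ideal.mem_comap, map_ofNat]
        exact h5
      obtain ⟨a1, a2⟩ := aV_eq h3 hw3'' hnw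
      obtain ⟨b1, b2, b3⟩ := pw_valN ι (v := w) hw3''
      refine Or.inr ⟨pw ι w, by rw [a1, b1], by rw [a2, b2, b3], ?_⟩
      rw [b3, ← hnw]
    · rw [hcv] at hq
      obtain ⟨a1, a2⟩ := aV_inert h3 hq
      have hsq : ((Real.sqrt (nK v) : ℝ) : ℂ) * ((Real.sqrt (nK v) : ℝ) : ℂ) = (nK v : ℂ) := by
        rw [← Complex.ofReal_mul, Real.mul_self_sqrt (Nat.cast_nonneg _)]
        push_cast
        rfl
      have hx : (Complex.I * ((Real.sqrt (nK v) : ℝ) : ℂ)) *
          (starRingEnd ℂ) (Complex.I * ((Real.sqrt (nK v) : ℝ) : ℂ)) = (nK v : ℂ) := by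
        rw [map_mul, Complex.conj_I, Complex.conj_ofReal]
        linear_combination hsq - ((Real.sqrt (nK v) : ℝ) : ℂ) * ((Real.sqrt (nK v) : ℝ) : ℂ) *
          Complex.I_sq
      refine Or.inr ⟨Complex.I * ((Real.sqrt (nK v) : ℝ) : ℂ), ?_, ?_, hx⟩
      · rw [a1, map_mul, Complex.conj_I, Complex.conj_ofReal]
        push_cast
        ring
      · rw [a2, hx]
        push_cast
        rfl

/-- the data of the quadratic extension -/
lemma mkQe (h2 : Module.finrank K₀ K = 2) (h3 : Add3 K₀)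
    (hns : ∀ x : K₀, x ^ 2 ≠ -3) (ι : eis →+* 𝓞 K) : ∃ τ : K ≃ₐ[K₀] K, Qe K₀ ι τ := by
  set z : 𝓞 K := ι omr with hz
  have hz1 : z ^ 2 + z + 1 = 0 := by
    rw [hz, ← map_pow, ← map_add, ← map_one ι, ← map_add, omr_sq, map_zero]
  have hz2 : ((z : 𝓞 K) : K) ^ 2 + (z : K) + 1 = 0 := by
    have := congrArg (fun t : 𝓞 K => (t : K)) hz1
    push_cast at this
    exact this
  have hθ : (2 * (z : K) + 1) ^ 2 = -3 := by linear_combination 4 * hz2
  obtain ⟨τ, hτ⟩ := exists_tau h2 hns hθ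
  have hτz : τ (z : K) = (z : K) ^ 2 := by
    rw [map_add, map_mul, map_ofNat, map_one] at hτ
    have h20 : (2 : K) ≠ 0 := two_ne_zero
    have : 2 * (τ (z : K) - (z : K) ^ 2) = 0 := by linear_combination hτ - 2 * hz2
    exact sub_eq_zero.1 ((mul_eq_zero.1 this).resolve_left h20)
  refine ⟨τ, h2, fun a => ?_, h3⟩
  have hτz' : τ • z = z ^ 2 := by
    apply RingOfIntegers.ext
    have h1 : ((τ • z : 𝓞 K) : K) = τ (z : K) := rfl
    rw [h1, hτz]
    rfl
  obtain ⟨x, y, rfl⟩ := eis_rep a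
  have hcj : Pool.Agent.Y696.cj ((x : eis) + y * omr) = (x : eis) + y * omr ^ 2 := coe_inj' (by
    push_cast
    rw [cj_coe]
    push_cast
    rw [omr_coe, map_add, map_mul, conj_om, map_intCast, map_intCast])
  rw [hcj, map_add, map_mul, map_add, map_mul, map_pow, map_intCast, map_intCast, smul_add,
    smul_mul', ← hz, hτz']
  have hint : ∀ k : ℤ, τ • (k : 𝓞 K) = k := by
    intro k
    apply RingOfIntegers.ext
    have h1 : ((τ • (k : 𝓞 K) : 𝓞 K) : K) = τ ((k : 𝓞 K) : K) := rfl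
    rw [h1]
    exact map_intCast τ k
  rw [hint, hint]

/-- **fields without the cube roots of unity** -/
theorem arz_small (ι : Pool.Agent.Y688.RR →+* 𝓞 K) {f : ℂ → ℂ} (hf : VV ι (X0 1) f)
    (hf1 : f 1 ≠ 0) (h2K : Module.finrank K₀ K = 2) (h3 : Add3 K₀) (hns : ∀ x : K₀, x ^ 2 ≠ -3) :
    ARZ K₀ (fun s => (starRingEnd ℂ) (f ((starRingEnd ℂ) s))) := by
  obtain ⟨τ, Q⟩ := mkQe (K₀ := K₀) h2K h3 hns (iE ι)
  refine ⟨mero_conj hf.mero, fun s hs => ?_, an_conj (by rw [map_one]; exact hf.an), ?_⟩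
  · have k1 := LSeries_hasProd' (E0 K₀) Q.hasse hs
    refine ⟨k1.1, ?_⟩
    have k2 : HasProd (fun v : HeightOneSpectrum (𝓞 K₀) => Pool.Agent.Y696.XX v s)
      ((E0 K₀).LSeries s) := k1.2
    have k3 : HasProd (fun v : HeightOneSpectrum (𝓞 K) => yw (iE ι) v s)
        ((starRingEnd ℂ) (f ((starRingEnd ℂ) s))) := by
      have h3 := VV_conj (N := K) (ι := ι) (f := f) (X := X0 1) (X0_ic 1)
        (by rw [X0_conj (N := K) (n := 1)]; exact hf) hs
      refine h3.congr_fun fun v => ?_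
      rw [hX1]
      unfold Pool.Agent.Y696.HH yw
      rw [one_mul]
    have k4 := (Equiv.sigmaFiberEquiv (und0 K₀ (K := K))).hasProd_iff.2 k3
    have k5 := k4.sigma (g := fun v => Pool.Agent.Y696.XX v s) fun v => Q.fib v s
    show (starRingEnd ℂ) (f ((starRingEnd ℂ) s)) = (E0 K₀).LSeries s
    exact (k2.unique k5).symm
  · simp only [map_one]
    exact (map_ne_zero _).2 hf1

end

end Pool.Agent.K7.H70.SM
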