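import Pool.Agent.K7.H70.SM.D
import Pool.Agent.K7.H73.NM.J

/-!
# The value at one over the subfields of an extension of `ℚ(ζ₉)`; the rank part
-/

set_option autoImplicit false
set_option linter.unusedSectionVars false

open Complex NumberField IsDedekindDomain
open scoped PeriodPair nonZeroDivisors

namespace Pool.Agent.K7.H70.SM

open Pool.Agent.K7.H56
open Pool.Agent.K7.H56.P
open Pool.Agent.R430
open Pool.Agent.Y696 Pool.Agent.W192.HK Pool.Agent.TH936.CM H667R3
open Pool.Agent.TH936.PU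
open Pool.Agent.K7.H70.AS
open Pool.Agent.Y688 (NI HL)
open Pool.Agent.K7.H56.M (unr2_down)

/-- the value at one over `ℚ(ζ₉)` -/
def Base9 : Prop := ∀ (M : Type) [Field M] [NumberField M] [IsCyclotomicExtension {9} ℚ M]
  (ι : Pool.Agent.Y688.RR →+* 𝓞 M), Base ι 3

lemma Gz.unr2 {K : Type} [Field K] [NumberField K] (h : Gz K) : Unr2 K := h.two

section
variable {N T : Type} [Field N] [NumberField N] [Field T] [NumberField T] [Algebra N T]
  [IsGalois N T] {ι : Pool.Agent.Y688.RR →+* 𝓞 N}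

/-- **the cubic step** -/
theorem base_down {d : ℕ} (hd : Module.finrank ℚ N = 2 * d) (hUT : Unr2 T)
    (h3d : Module.finrank N T = 3) {z : 𝓞 T} (hz : IsPrimitiveRoot z 9)
    (hgen : ∀ σ : Gal(T/N), σ • z = z → σ = 1)
    (hB : Base ((algebraMap (𝓞 N) (𝓞 T)).comp ι) (3 * d)) : Base ι d := by
  intro f hf L Ω hC Γ _ v hv
  have hUN : Unr2 N := unr2_down hUT
  have hdT : Module.finrank ℚ T = 2 * (3 * d) := by
    rw [← Module.finrank_mul_finrank ℚ N T, hd, h3d]
    ring
  have hL := HL_of_Cur hC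
  obtain ⟨ω, hω⟩ := exists_om ι
  obtain ⟨F, -, hF, -, -⟩ := core_gen2 T ((algebraMap (𝓞 N) (𝓞 T)).comp ι) _ hdT hUT 1 (X0 1) (X0 1)
    (X0_ih 1) (X0_ih 1) odd_one
  obtain ⟨f', f'', hf', -, b0⟩ := core_gen2 N ι d hd hUN 1 (X0 1) (X0 1) (X0_ih 1) (X0_ih 1) odd_one
  obtain ⟨g1, g1', hg1, -, b1⟩ := core_gen2 N ι d hd hUN 9 (X9 1) (X9 1) (X9_ih hω 1) (X9_ih hω 1)
    (by decide)
  obtain ⟨g2, g2', hg2, -, b2⟩ := core_gen2 N ι d hd hUN 9 (X9 2) (X9 2) (X9_ih hω 2) (X9_ih hω 2)
    (by decide)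
  have hff : f 1 = f' 1 := mero_eq2 hf.mero hf'.mero
    (fun s hs => (hf.sum s hs).unique (hf'.sum s hs)) hf.an hf'.an
  have c0 := (b0 L Ω hL Γ v hv).1
  have c1 := (b1 L Ω hL Γ v hv).1
  have c2 := (b2 L Ω hL Γ v hv).1
  rw [← hff] at c0
  have e1 := L_prod9 h3d hz hgen hF hf hg1 hg2
  have e2 := hB F hF L Ω hC Γ v hv
  rw [e1, map_mul, map_mul] at e2
  have hΩ : v Ω ^ d ≠ 0 := pow_ne_zero _ ((Valuation.ne_zero_iff _).2 hL.ne)
  have hΩp : 0 < v Ω ^ d := zero_lt_iff.2 hΩ
  refine le_antisymm c0 ?_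
  by_contra hlt
  push Not at hlt
  have : v (f 1) * v (g1 1) * v (g2 1) < v Ω ^ (3 * d) := by
    calc v (f 1) * v (g1 1) * v (g2 1) ≤ v (f 1) * v Ω ^ d * v Ω ^ d := by gcongr
      _ < v Ω ^ d * v Ω ^ d * v Ω ^ d := by
        refine mul_lt_mul_of_pos_right (mul_lt_mul_of_pos_right hlt hΩp) hΩp
      _ = v Ω ^ (3 * d) := by rw [← pow_add, ← pow_add]; congr 1; ring
  rw [e2] at this
  exact lt_irrefl _ this

end

section
variable {M K : Type} [Field M] [NumberField M] [IsCyclotomicExtension {9} ℚ M] [Field K]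
  [NumberField K] [Algebra M K]

lemma exists_z9 (M : Type) [Field M] [NumberField M] [IsCyclotomicExtension {9} ℚ M] :
    ∃ ζ : M, IsPrimitiveRoot ζ 9 :=
  IsCyclotomicExtension.exists_isPrimitiveRoot ℚ M (Set.mem_singleton 9) (by norm_num)

/-- `ℚ(ζ₉)` maps into every subfield that contains a primitive ninth root of unity -/
lemma exists_alg9 {T : Type} [Field T] [Algebra T K] {t : T} (ht : IsPrimitiveRoot t 9) :
    ∃ f : M →+* T, (algebraMap T K).comp f = algebraMap M K := by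
  have hcz : CharZero T := (RingHom.charZero_iff (algebraMap T K).injective).2 inferInstance
  obtain ⟨ζ, hζ⟩ := exists_z9 M
  have hmem : algebraMap M K ζ ∈ (algebraMap T K).range := by
    have h1 : IsPrimitiveRoot (algebraMap T K t) 9 := ht.map_of_injective (algebraMap T K).injective
    obtain ⟨i, -, hi⟩ := h1.eq_pow_of_pow_eq_one (ξ := algebraMap M K ζ)
      (by rw [← map_pow, hζ.pow_eq_one, map_one])
    rw [← hi, ← map_pow]
    exact ⟨_, rfl⟩
  have hall : ∀ x : M, algebraMap M K x ∈ (algebraMap T K).range := by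
    intro x
    have h6 : x ∈ Algebra.adjoin ℚ ({ζ} : Set M) := by
      rw [IsCyclotomicExtension.adjoin_primitive_root_eq_top hζ]
      exact Algebra.mem_top
    induction h6 using Algebra.adjoin_induction with
    | mem y hy => rw [Set.mem_singleton_iff.1 hy]; exact hmem
    | algebraMap q =>
      refine ⟨(q : T), ?_⟩
      rw [eq_ratCast, map_ratCast, map_ratCast]
    | add y z _ _ hy hz => rw [map_add]; exact add_mem hy hz
    | mul y z _ _ hy hz => rw [map_mul]; exact mul_mem hy hz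
  let e : T ≃+* (algebraMap T K).range := RingEquiv.ofBijective (algebraMap T K).rangeRestrict
    ⟨fun x y h => (algebraMap T K).injective (congrArg Subtype.val h),
      (algebraMap T K).rangeRestrict_surjective⟩
  refine ⟨(e.symm : (algebraMap T K).range →+* T).comp
    ((algebraMap M K).codRestrict (algebraMap T K).range hall), ?_⟩
  ext x
  have h7 : ∀ z : (algebraMap T K).range, algebraMap T K (e.symm z) = z := fun z =>
    congrArg Subtype.val (e.apply_symm_apply z)
  exact h7 _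

lemma fr9 (M : Type) [Field M] [NumberField M] [IsCyclotomicExtension {9} ℚ M] :
    Module.finrank ℚ M = 2 * 3 := by
  rw [IsCyclotomicExtension.finrank (n := 9) M (Polynomial.cyclotomic.irreducible_rat (by norm_num))]
  decide

lemma om9 (M : Type) [Field M] [NumberField M] [IsCyclotomicExtension {9} ℚ M] :
    ∃ ω : M, ω ^ 2 + ω + 1 = 0 := by
  obtain ⟨ζ, hζ⟩ := exists_z9 M
  have h2 : ζ ^ 3 ≠ 1 := hζ.pow_ne_one_of_pos_of_lt (by norm_num) (by norm_num)
  have h1 : ζ ^ 9 = 1 := hζ.pow_eq_one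
  refine ⟨ζ ^ 3, ?_⟩
  have h3 : (ζ ^ 3 - 1) * ((ζ ^ 3) ^ 2 + ζ ^ 3 + 1) = 0 := by linear_combination h1
  exact (mul_eq_zero.1 h3).resolve_left (sub_ne_zero.2 h2)

/-- two is unramified in `ℚ(ζ₉)` -/
lemma two9 (M : Type) [Field M] [NumberField M] [IsCyclotomicExtension {9} ℚ M] : Unr2 M := by
  intro v hv
  have h := Pool.Agent.K7.H73.NM.unr9 M Nat.prime_two (by norm_num) v hv
  exact_mod_cast h

lemma gz9 (M : Type) [Field M] [NumberField M] [IsCyclotomicExtension {9} ℚ M] : Gz M :=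
  ⟨om9 M, two9 M, fun _ h => Pool.Agent.K7.H73.NM.sq9 M h⟩

variable [IsGalois M K]

/-- **the tower** -/
theorem base_tower (hb : Base9) {r : ℕ} (hr : Module.finrank M K = 2 ^ r) (hU : Unr2 K)
    (hG : Gd M K) (ι : Pool.Agent.Y688.RR →+* 𝓞 M) {T : Type} [Field T] [NumberField T] [Algebra M T]
    (φ : T →ₐ[M] K) {n : ℕ} (hn : Module.finrank M T = 2 ^ n) :
    Base ((algebraMap (𝓞 M) (𝓞 T)).comp ι) (3 * 2 ^ n) := by
  intro g hg L Ω hC Γ _ v hv
  have hL := HL_of_Cur hC
  obtain ⟨f, -, hf, -, -⟩ := core_gen2 M ι 3 (fr9 M) (two9 M) 1 (X0 1) (X0 1)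
    (X0_ih 1) (X0_ih 1) odd_one
  exact (tower_good ι hr hU hG (fr9 M) hf hL hv n T φ hn g hg).2 (hb M ι f hf L Ω hC Γ v hv)

omit [IsCyclotomicExtension {9} ℚ M] [NumberField K] [IsGalois M K] in
/-- the homomorphisms from the Eisenstein integers descend -/
lemma iota_desc (hM : ∃ ω : M, ω ^ 2 + ω + 1 = 0) (j : eis →+* 𝓞 K) :
    ∃ i : eis →+* 𝓞 M, (algebraMap (𝓞 M) (𝓞 K)).comp i = j := by
  obtain ⟨i⟩ := exists_iota hM
  have hinj : Function.Injective (algebraMap (𝓞 M) (𝓞 K)) := by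
    intro x y h
    apply RingOfIntegers.ext
    apply (algebraMap M K).injective
    exact congrArg (fun t : 𝓞 K => (t : K)) h
  have hext : ∀ a b : eis →+* 𝓞 K, a omr = b omr → a = b := by
    intro a b h
    ext1 x
    obtain ⟨m, n, rfl⟩ := eis_rep x
    rw [map_add, map_mul, map_intCast, map_intCast, h, map_add, map_mul, map_intCast, map_intCast]
  have e1 : (algebraMap (𝓞 M) (𝓞 K) (i omr)) ^ 2 + algebraMap (𝓞 M) (𝓞 K) (i omr) + 1 = 0 := by
    rw [← map_pow, ← map_pow, ← map_add, ← map_add, ← map_one (algebraMap (𝓞 M) (𝓞 K)), ← map_one i,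
      ← map_add, ← map_add, omr_sq, map_zero, map_zero]
  have e2 : (j omr) ^ 2 + j omr + 1 = 0 := by
    rw [← map_pow, ← map_add, ← map_one j, ← map_add, omr_sq, map_zero]
  have e3 : (j omr - algebraMap (𝓞 M) (𝓞 K) (i omr)) *
      (j omr + algebraMap (𝓞 M) (𝓞 K) (i omr) + 1) = 0 := by linear_combination e2 - e1
  rcases mul_eq_zero.1 e3 with h | h
  · exact ⟨i, hext _ _ (sub_eq_zero.1 h).symm⟩
  · let c : eis →+* eis :=
      { toFun := Pool.Agent.Y696.cj
        map_one' := by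
          apply Subtype.ext
          rw [cj_coe]
          simp
        map_mul' := fun x y => by
          apply Subtype.ext
          push_cast
          rw [cj_coe, cj_coe, cj_coe]
          push_cast
          rw [map_mul]
        map_zero' := by
          apply Subtype.ext
          rw [cj_coe]
          simp
        map_add' := fun x y => by
          apply Subtype.ext
          push_cast
          rw [cj_coe, cj_coe, cj_coe]
          push_cast
          rw [map_add] }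
    refine ⟨i.comp c, hext _ _ ?_⟩
    show algebraMap (𝓞 M) (𝓞 K) (i (Pool.Agent.Y696.cj omr)) = j omr
    rw [cj_omr, map_pow, map_pow]
    linear_combination e1 - h

omit [IsCyclotomicExtension {9} ℚ M] [NumberField K] [IsGalois M K] in
lemma iota_desc' (hM : ∃ ω : M, ω ^ 2 + ω + 1 = 0) (j : Pool.Agent.Y688.RR →+* 𝓞 K) :
    ∃ i : Pool.Agent.Y688.RR →+* 𝓞 M, (algebraMap (𝓞 M) (𝓞 K)).comp i = j := by
  obtain ⟨i, hi⟩ := iota_desc hM (iE j)
  refine ⟨i.comp (RingEquiv.subringCongr RRe : Pool.Agent.Y688.RR →+* eis), ?_⟩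
  rw [← RingHom.comp_assoc, hi]
  ext1 x
  rfl

/-- the subfields with a ninth root of unity -/
theorem base_nine (hb : Base9) {r : ℕ} (hr : Module.finrank M K = 2 ^ r) (hU : Unr2 K)
    (hG : Gd M K) {T : Type} [Field T] [NumberField T] [Algebra T K] {t : T}
    (ht : IsPrimitiveRoot t 9) (ι : Pool.Agent.Y688.RR →+* 𝓞 T) :
    ∃ n : ℕ, Module.finrank ℚ T = 2 * (3 * 2 ^ n) ∧ Base ι (3 * 2 ^ n) := by
  obtain ⟨f, hf⟩ := exists_alg9 (M := M) (K := K) ht
  let _ : Algebra M T := f.toAlgebra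
  let φ : T →ₐ[M] K :=
    { (algebraMap T K) with
      commutes' := fun x => by
        show algebraMap T K (f x) = algebraMap M K x
        rw [← hf]
        rfl }
  have hst : IsScalarTower M T K := IsScalarTower.of_algebraMap_eq fun x => (φ.commutes x).symm
  have hd : Module.finrank M T ∣ 2 ^ r := by
    rw [← hr, ← Module.finrank_mul_finrank M T K]
    exact Dvd.intro _ rfl
  obtain ⟨n, -, hn⟩ := (Nat.dvd_prime_pow Nat.prime_two).1 hd
  refine ⟨n, ?_, ?_⟩
  · rw [← Module.finrank_mul_finrank ℚ M T, fr9, hn]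
    ring
  · obtain ⟨i, hi⟩ := iota_desc' (M := M) (K := T) (om9 M) ι
    rw [← hi]
    exact base_tower hb hr hU hG i φ hn

end

end Pool.Agent.K7.H70.SM
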